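import Mathlib
import Pool.Agent.Lib.MP_938ce2_ag_u2.Defs

/-!
Definitions for the rows `sb_tasks`: for every CM field of degree `2 g` all but a small share of the CM types
have no exceptional Tate class of codimension `≤ c g / log g` on any power (MP_938ce2_ag).
-/

set_option autoImplicit false
set_option linter.unusedSectionVars false

namespace Pool.Agent.Lib.MP_938ce2_ag_sub

open Finset Module MonoidAlgebra
open Pool.Agent.Lib.MP_938ce2_ag_h67 (sg VV ev mkV)
open Pool.Agent.Lib.MP_938ce2_ag_h60 (CMType)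

section

variable {X : Type} [Fintype X] [DecidableEq X]

/-- the set with `sg (mul U V) x = sg U x * sg V x` -/
def mul (U V : Finset X) : Finset X := Finset.univ.filter fun x => (x ∈ U ↔ x ∈ V)

lemma mem_mul (U V : Finset X) (x : X) : x ∈ mul U V ↔ (x ∈ U ↔ x ∈ V) := by
  unfold mul
  rw [Finset.mem_filter]
  exact ⟨fun h => h.2, fun h => ⟨Finset.mem_univ _, h⟩⟩

lemma sg_mul (U V : Finset X) (x : X) : sg (mul U V) x = sg U x * sg V x := by
  unfold sg
  by_cases h1 : x ∈ U
  · by_cases h2 : x ∈ V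
    · rw [if_pos ((mem_mul U V x).mpr ⟨fun _ => h2, fun _ => h1⟩), if_pos h1, if_pos h2, one_mul]
    · rw [if_neg (fun h => h2 (((mem_mul U V x).mp h).mp h1)), if_pos h1, if_neg h2, one_mul]
  · by_cases h2 : x ∈ V
    · rw [if_neg (fun h => h1 (((mem_mul U V x).mp h).mpr h2)), if_neg h1, if_pos h2, mul_one]
    · rw [if_pos ((mem_mul U V x).mpr ⟨fun h => absurd h h1, fun h => absurd h h2⟩), if_neg h1,
        if_neg h2]
      norm_num

lemma sg_sq (U : Finset X) (x : X) : sg U x * sg U x = 1 := by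
  unfold sg
  split_ifs <;> norm_num

lemma sg_inj {U V : Finset X} (h : ∀ x, sg U x = sg V x) : U = V := by
  ext x
  have h1 := h x
  unfold sg at h1
  by_cases h2 : x ∈ U
  · by_cases h3 : x ∈ V
    · exact ⟨fun _ => h3, fun _ => h2⟩
    · rw [if_pos h2, if_neg h3] at h1
      norm_num at h1
  · by_cases h3 : x ∈ V
    · rw [if_neg h2, if_pos h3] at h1
      norm_num at h1
    · exact ⟨fun h => absurd h h2, fun h => absurd h h3⟩

lemma mul_mul_self (U V : Finset X) : mul (mul U V) V = U := by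
  apply sg_inj
  intro x
  rw [sg_mul, sg_mul, mul_assoc, sg_sq, mul_one]

lemma mul_comm' (U V : Finset X) : mul U V = mul V U := by
  apply sg_inj
  intro x
  rw [sg_mul, sg_mul, mul_comm]

lemma mul_self (U : Finset X) : mul U U = Finset.univ := by
  apply sg_inj
  intro x
  rw [sg_mul, sg_sq]
  unfold sg
  rw [if_pos (Finset.mem_univ x)]

end

section

variable (G : Type) {X : Type} [Group G] [MulAction G X] [Fintype X] [DecidableEq X]

/-- the subsets containing `x₀` whose sign function is multiplied by a sign by every element of the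
group: these correspond to the quadratic characters of `G` trivial on the stabilizer of `x₀` -/
def Quad (x₀ : X) (U : Finset X) : Prop :=
  x₀ ∈ U ∧ ∀ σ : G, (∀ x, σ • x ∈ U ↔ x ∈ U) ∨ (∀ x, σ • x ∈ U ↔ x ∉ U)

open Classical in
/-- the odd quadratic sets orthogonal to `Φ` -/
noncomputable def ZZ (c : G) (x₀ : X) (Φ : Finset X) : Finset (Finset X) :=
  Finset.univ.filter fun U => Quad G x₀ U ∧ CMType c U ∧ ∑ x, sg Φ x * sg U x = 0

lemma mem_ZZ (c : G) (x₀ : X) (Φ U : Finset X) :
    U ∈ ZZ G c x₀ Φ ↔ Quad G x₀ U ∧ CMType c U ∧ ∑ x, sg Φ x * sg U x = 0 := by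
  classical
  unfold ZZ
  rw [Finset.mem_filter]
  exact ⟨fun h => h.2, fun h => ⟨Finset.mem_univ _, h⟩⟩

/-- the number of the members of a set of sets whose product with `V` is a member -/
def rr (Z : Finset (Finset X)) (V : Finset X) : ℕ := (Z.filter fun U => mul U V ∈ Z).card

/-- the odd functions orthogonal to all translates of `Φ` and to the odd quadratic sets orthogonal to `Φ` -/
noncomputable def Rest (c : G) (x₀ : X) (Φ : Finset X) : Submodule ℚ (X → ℚ) where
  carrier := {f | (∀ x, f (c • x) = - f x) ∧ (∀ σ : G, ∑ x, (sg Φ x : ℚ) * f (σ • x) = 0) ∧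
    ∀ U ∈ ZZ G c x₀ Φ, ∑ x, (sg U x : ℚ) * f x = 0}
  zero_mem' := by
    refine ⟨fun x => ?_, fun σ => ?_, fun U _ => ?_⟩
    · show (0 : ℚ) = -0
      rw [neg_zero]
    · refine Finset.sum_eq_zero fun x _ => ?_
      show (sg Φ x : ℚ) * 0 = 0
      rw [mul_zero]
    · refine Finset.sum_eq_zero fun x _ => ?_
      show (sg U x : ℚ) * 0 = 0
      rw [mul_zero]
  add_mem' := by
    rintro f f' ⟨h1, h2, h3⟩ ⟨h1', h2', h3'⟩
    refine ⟨fun x => ?_, fun σ => ?_, fun U hU => ?_⟩
    · show f (c • x) + f' (c • x) = -(f x + f' x)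
      rw [h1, h1', neg_add]
    · have h := h2 σ
      have h' := h2' σ
      show ∑ x, (sg Φ x : ℚ) * (f (σ • x) + f' (σ • x)) = 0
      simp only [mul_add, Finset.sum_add_distrib]
      rw [h, h', add_zero]
    · have h := h3 U hU
      have h' := h3' U hU
      show ∑ x, (sg U x : ℚ) * (f x + f' x) = 0
      simp only [mul_add, Finset.sum_add_distrib]
      rw [h, h', add_zero]
  smul_mem' := by
    rintro a f ⟨h1, h2, h3⟩
    refine ⟨fun x => ?_, fun σ => ?_, fun U hU => ?_⟩
    · show a * f (c • x) = -(a * f x)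
      rw [h1, mul_neg]
    · have h := h2 σ
      show ∑ x, (sg Φ x : ℚ) * (a * f (σ • x)) = 0
      have e : ∀ x, (sg Φ x : ℚ) * (a * f (σ • x)) = a * ((sg Φ x : ℚ) * f (σ • x)) := fun x => by
        ring
      simp only [e]
      rw [← Finset.mul_sum, h, mul_zero]
    · have h := h3 U hU
      show ∑ x, (sg U x : ℚ) * (a * f x) = 0
      have e : ∀ x, (sg U x : ℚ) * (a * f x) = a * ((sg U x : ℚ) * f x) := fun x => by ring
      simp only [e]
      rw [← Finset.mul_sum, h, mul_zero]

end

end Pool.Agent.Lib.MP_938ce2_ag_sub
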