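import Mathlib
import Pool.Agent.Lib.MP_938ce2_ag_sub.SD

/-!
Row S4: elementary facts on the quadratic sets.
-/

set_option autoImplicit false
set_option linter.unusedSectionVars false

namespace Pool.Agent.Lib.MP_938ce2_ag_sub

open Finset Module
open Pool.Agent.Lib.MP_938ce2_ag_h67 (sg)
open Pool.Agent.Lib.MP_938ce2_ag_h60 (CMType)

variable {G X : Type} [Group G] [MulAction G X] [Fintype X] [DecidableEq X] {x₀ : X}

theorem quad_mul {U V : Finset X} (hU : Quad G x₀ U) (hV : Quad G x₀ V) : Quad G x₀ (mul U V) := by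
  obtain ⟨hU0, hU1⟩ := hU
  obtain ⟨hV0, hV1⟩ := hV
  refine ⟨(mem_mul U V x₀).mpr ⟨fun _ => hV0, fun _ => hU0⟩, fun σ => ?_⟩
  rcases hU1 σ with h1 | h1 <;> rcases hV1 σ with h2 | h2
  · left
    intro x
    rw [mem_mul, mem_mul, h1 x, h2 x]
  · right
    intro x
    rw [mem_mul, mem_mul, h1 x, h2 x]
    tauto
  · right
    intro x
    rw [mem_mul, mem_mul, h1 x, h2 x]
    tauto
  · left
    intro x
    rw [mem_mul, mem_mul, h1 x, h2 x]
    tauto

private lemma s4_sg_one {U : Finset X} (h : x₀ ∈ U) : sg U x₀ = 1 := by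
  unfold sg
  rw [if_pos h]

private lemma s4_sg_neg {U : Finset X} {x : X} (h : x ∉ U) : sg U x = -1 := by
  unfold sg
  rw [if_neg h]

private lemma s4_sg_cases (U : Finset X) (x : X) : sg U x = 1 ∨ sg U x = -1 := by
  unfold sg
  split_ifs
  · left; rfl
  · right; rfl

/-- the sign function is multiplied by a sign -/
theorem quad_smul {U : Finset X} (hU : Quad G x₀ U) (σ : G) (x : X) :
    sg U (σ • x) = sg U (σ • x₀) * sg U x := by
  obtain ⟨hU0, hU1⟩ := hU
  rcases hU1 σ with h | h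
  · have e : ∀ y, sg U (σ • y) = sg U y := by
      intro y
      unfold sg
      by_cases hy : y ∈ U
      · rw [if_pos hy, if_pos ((h y).mpr hy)]
      · rw [if_neg hy, if_neg (fun h' => hy ((h y).mp h'))]
    rw [e x, e x₀, s4_sg_one hU0, one_mul]
  · have e : ∀ y, sg U (σ • y) = - sg U y := by
      intro y
      unfold sg
      by_cases hy : y ∈ U
      · rw [if_pos hy, if_neg (fun h' => (h y).mp h' hy)]
      · rw [if_neg hy, if_pos ((h y).mpr hy)]
        norm_num
    rw [e x, e x₀, s4_sg_one hU0]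
    ring

variable [MulAction.IsPretransitive G X]

theorem quad_sum {V : Finset X} (hV : Quad G x₀ V) (hV1 : V ≠ Finset.univ) : ∑ x, sg V x = 0 := by
  have h1 : ∃ y, y ∉ V := by
    by_contra hcon
    push Not at hcon
    exact hV1 (Finset.eq_univ_iff_forall.mpr hcon)
  obtain ⟨y, hy⟩ := h1
  obtain ⟨σ, hσ⟩ := MulAction.exists_smul_eq G x₀ y
  have h2 : ∀ x, sg V (σ • x) = - sg V x := by
    intro x
    rw [quad_smul hV σ x, hσ, s4_sg_neg hy]
    ring
  have h3 : ∑ x, sg V (σ • x) = ∑ x, sg V x := Equiv.sum_comp (MulAction.toPerm σ) (fun x => sg V x)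
  simp only [h2, Finset.sum_neg_distrib] at h3
  linarith

private lemma s4_mul_univ {A B : Finset X} (h : mul A B = Finset.univ) : A = B := by
  have h1 := mul_mul_self A B
  rw [h] at h1
  have h2 := mul_mul_self B B
  rw [mul_self] at h2
  rw [← h1, h2]

theorem quad_orth4 {U₁ U₂ U₃ U₄ : Finset X} (h1 : Quad G x₀ U₁) (h2 : Quad G x₀ U₂)
    (h3 : Quad G x₀ U₃) (h4 : Quad G x₀ U₄) (h : mul U₁ U₂ ≠ mul U₃ U₄) :
    ∑ x, (sg U₁ x : ℝ) * sg U₂ x * (sg U₃ x * sg U₄ x) = 0 := by
  have h5 : Quad G x₀ (mul (mul U₁ U₂) (mul U₃ U₄)) := quad_mul (quad_mul h1 h2) (quad_mul h3 h4)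
  have h6 : mul (mul U₁ U₂) (mul U₃ U₄) ≠ Finset.univ := fun h' => h (s4_mul_univ h')
  have h7 := quad_sum h5 h6
  simp only [sg_mul] at h7
  exact_mod_cast h7

private lemma s4_linInd (q : ℕ) [Fact q.Prime] (hq : q ≠ 2) (B : Finset (Finset X))
    (hB : ∀ U ∈ B, Quad G x₀ U) :
    LinearIndependent (ZMod q) (fun (U : B) (x : X) => (sg (U : Finset X) x : ZMod q)) := by
  let χ : B → (G →* ZMod q) := fun U =>
    { toFun := fun σ => (sg (U : Finset X) (σ • x₀) : ZMod q)
      map_one' := by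
        rw [one_smul, s4_sg_one (hB U U.2).1, Int.cast_one]
      map_mul' := fun σ τ => by
        rw [mul_smul, quad_smul (hB U U.2) σ (τ • x₀), Int.cast_mul] }
  have hne : (1 : ZMod q) ≠ -1 := by
    intro h
    have h2 : ((2 : ℕ) : ZMod q) = 0 := by
      push_cast
      linear_combination h
    rw [ZMod.natCast_eq_zero_iff] at h2
    exact hq ((Nat.prime_dvd_prime_iff_eq Fact.out Nat.prime_two).mp h2)
  have hinj : Function.Injective χ := by
    intro U V hUV
    apply Subtype.ext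
    apply sg_inj
    intro x
    obtain ⟨σ, rfl⟩ := MulAction.exists_smul_eq G x₀ x
    have h1 : (sg (U : Finset X) (σ • x₀) : ZMod q) = (sg (V : Finset X) (σ • x₀) : ZMod q) :=
      DFunLike.congr_fun hUV σ
    rcases s4_sg_cases (U : Finset X) (σ • x₀) with h2 | h2 <;>
      rcases s4_sg_cases (V : Finset X) (σ • x₀) with h3 | h3
    · rw [h2, h3]
    · exfalso
      rw [h2, h3] at h1
      push_cast at h1
      exact hne h1
    · exfalso
      rw [h2, h3] at h1
      push_cast at h1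
      exact hne h1.symm
    · rw [h2, h3]
  have h1 : LinearIndependent (ZMod q) (fun U : B => (χ U : G → ZMod q)) :=
    (linearIndependent_monoidHom G (ZMod q)).comp χ hinj
  exact LinearIndependent.of_comp (LinearMap.funLeft (ZMod q) (ZMod q) (fun σ : G => σ • x₀)) h1

theorem quad_rank (q : ℕ) [Fact q.Prime] (hq : q ≠ 2) (B : Finset (Finset X))
    (hB : ∀ U ∈ B, Quad G x₀ U) :
    finrank (ZMod q) (Submodule.span (ZMod q)
      ((fun (U : Finset X) (x : X) => (sg U x : ZMod q)) '' (B : Set (Finset X)))) = B.card := by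
  have h1 := finrank_span_eq_card (s4_linInd (G := G) (x₀ := x₀) q hq B hB)
  rw [Set.image_eq_range]
  have h2 : Fintype.card B = B.card := Fintype.card_coe B
  rw [← h2, ← h1]
  rfl

theorem card_quad (B : Finset (Finset X)) (hB : ∀ U ∈ B, Quad G x₀ U) :
    B.card ≤ Fintype.card X := by
  have : Fact (Nat.Prime 3) := ⟨Nat.prime_three⟩
  have h1 := quad_rank (G := G) (x₀ := x₀) 3 (by norm_num) B hB
  have h2 := Submodule.finrank_le (Submodule.span (ZMod 3)
      ((fun (U : Finset X) (x : X) => (sg U x : ZMod 3)) '' (B : Set (Finset X))))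
  rw [h1, Module.finrank_fintype_fun_eq_card] at h2
  exact h2

end Pool.Agent.Lib.MP_938ce2_ag_sub
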