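import Mathlib
import Pool.Agent.Lib.MP_938ce2_ag_sub.SD
import Pool.Agent.Lib.MP_938ce2_ag_h85d.Isotypic

/-!
Row S9: the dimension of the space `Rest`.
-/

set_option autoImplicit false
set_option linter.unusedSectionVars false

namespace Pool.Agent.Lib.MP_938ce2_ag_sub

open Finset Module MonoidAlgebra
open Pool.Agent.Lib.MP_938ce2_ag_h67 (sg VV ev mkV)
open Pool.Agent.Lib.MP_938ce2_ag_h60 (CMType)
open Pool.Agent.Lib.MP_938ce2_ag_u2 (Act OddM badC mem_badC dM dE dH)

open TensorProduct in
private theorem exists_isotypic {F R A V : Type} [Field F] [Ring R] [Algebra F R] [AddCommGroup A]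
    [Module F A] [Module R A] [IsScalarTower F R A] [AddCommGroup V] [Module F V] [Module R V]
    [IsScalarTower F R V] [Module.Finite F A] [Module.Finite F V] [Module.Finite F (A →ₗ[R] V)] :
    ∃ V1 : Submodule R V, (∀ f : A →ₗ[R] V, LinearMap.range f ≤ V1) ∧
    finrank F V1 ≤ finrank F (A →ₗ[R] V) * finrank F A := by
  let B : (A →ₗ[R] V) →ₗ[F] A →ₗ[F] V :=
    { toFun := fun f => f.restrictScalars F
      map_add' := fun f f' => rfl
      map_smul' := fun a f => rfl }
  let L : TensorProduct F (A →ₗ[R] V) A →ₗ[F] V := TensorProduct.lift B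
  let V1 : Submodule R V :=
    { carrier := LinearMap.range L
      zero_mem' := Submodule.zero_mem _
      add_mem' := fun {a b} ha hb => Submodule.add_mem _ ha hb
      smul_mem' := by
        rintro r _ ⟨t, rfl⟩
        induction t using TensorProduct.induction_on with
        | zero =>
          rw [map_zero, smul_zero]
          exact Submodule.zero_mem _
        | tmul f a =>
          refine ⟨f ⊗ₜ (r • a), ?_⟩
          show f (r • a) = r • f a
          exact map_smul f r a
        | add s t hs ht =>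
          rw [map_add, smul_add]
          exact Submodule.add_mem _ hs ht }
  refine ⟨V1, ?_, ?_⟩
  · rintro f _ ⟨a, rfl⟩
    exact ⟨f ⊗ₜ a, rfl⟩
  · have h1 : finrank F V1 = finrank F (LinearMap.range L) := rfl
    rw [h1, ← finrank_tensorProduct]
    exact LinearMap.finrank_range_le L

private theorem finrank_le_sum {F R V : Type} [Field F] [Ring R] [Algebra F R] [AddCommGroup V]
    [Module F V] [Module R V] [IsScalarTower F R V] [Module.Finite F V] {ι : Type} [Fintype ι]
    (P : ι → Submodule R V) (W : Submodule R V) (hW : W ≤ ⨆ i, P i) :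
    finrank F W ≤ ∑ i, finrank F (P i) := by
  classical
  have hfin : ∀ i, Module.Finite F (P i) := fun i => Module.Finite.of_injective
    ((P i).subtype.restrictScalars F) Subtype.val_injective
  let L : (∀ i, P i) →ₗ[R] V := ∑ i, (P i).subtype.comp (LinearMap.proj i)
  have hL : ∀ f, L f = ∑ i, (f i : V) := by
    intro f
    show (∑ i, (P i).subtype.comp (LinearMap.proj i)) f = _
    rw [LinearMap.sum_apply]
    rfl
  have h1 : W ≤ LinearMap.range L := by
    refine hW.trans (iSup_le fun i => ?_)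
    intro v hv
    refine ⟨Pi.single i ⟨v, hv⟩, ?_⟩
    rw [hL, Finset.sum_eq_single i]
    · rw [Pi.single_eq_same]
    · intro j _ hj
      rw [Pi.single_eq_of_ne hj]
      rfl
    · intro h
      exact absurd (Finset.mem_univ i) h
  have h2 : W.restrictScalars F ≤ LinearMap.range (L.restrictScalars F) := by
    intro v hv
    obtain ⟨f, hf⟩ := h1 hv
    exact ⟨f, hf⟩
  have h3 : finrank F W = finrank F (W.restrictScalars F) := rfl
  rw [h3]
  refine (Submodule.finrank_mono h2).trans ?_
  refine (LinearMap.finrank_range_le _).trans ?_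
  rw [Module.finrank_pi_fintype]

section

variable {G X : Type} [Group G] [Fintype G] [MulAction G X] [Fintype X] [DecidableEq X]
    [MulAction.IsPretransitive G X] {c : G} {g : ℕ}

private lemma sum_perm (σ : G) (F : X → ℚ) : ∑ x, F (σ • x) = ∑ x, F x :=
  Equiv.sum_comp (MulAction.toPerm σ) F

/-- the module -/
private def WW (hA : Act G X c g) (x₀ : X) (Φ : Finset X) :
    Submodule (MonoidAlgebra ℚ G) (VV ℚ G X) where
  carrier := {v | (fun x => ev v x) ∈ Rest G c x₀ Φ}
  add_mem' := by
    intro v w hv hw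
    exact (Rest G c x₀ Φ).add_mem hv hw
  zero_mem' := (Rest G c x₀ Φ).zero_mem
  smul_mem' := by
    intro r v hv
    induction r using MonoidAlgebra.induction_linear with
    | zero =>
      rw [zero_smul]
      exact (Rest G c x₀ Φ).zero_mem
    | add a b ha hb =>
      rw [add_smul]
      exact (Rest G c x₀ Φ).add_mem ha hb
    | single σ a =>
      obtain ⟨h1, h2, h3⟩ := hv
      refine ⟨fun x => ?_, fun τ => ?_, fun U hU => ?_⟩
      · show ev (MonoidAlgebra.single σ a • v) (c • x) = - ev (MonoidAlgebra.single σ a • v) x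
        rw [Pool.Agent.Lib.MP_938ce2_ag_h67.ev_single, Pool.Agent.Lib.MP_938ce2_ag_h67.ev_single,
          smul_smul, ← hA.comm, ← smul_smul]
        have h := h1 (σ⁻¹ • x)
        simp only at h
        rw [h, mul_neg]
      · show ∑ x, (sg Φ x : ℚ) * ev (MonoidAlgebra.single σ a • v) (τ • x) = 0
        have h := h2 (σ⁻¹ * τ)
        simp only at h
        have e : ∀ x, (sg Φ x : ℚ) * ev (MonoidAlgebra.single σ a • v) (τ • x)
            = a * ((sg Φ x : ℚ) * ev v ((σ⁻¹ * τ) • x)) := by
          intro x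
          rw [Pool.Agent.Lib.MP_938ce2_ag_h67.ev_single, smul_smul]
          ring
        rw [Finset.sum_congr rfl fun x _ => e x, ← Finset.mul_sum, h, mul_zero]
      · show ∑ x, (sg U x : ℚ) * ev (MonoidAlgebra.single σ a • v) x = 0
        have h := h3 U hU
        simp only at h
        obtain ⟨⟨_, hq⟩, _, _⟩ := (mem_ZZ G c x₀ Φ U).mp hU
        have e : ∑ x, (sg U x : ℚ) * ev (MonoidAlgebra.single σ a • v) x
            = ∑ x, (sg U (σ • x) : ℚ) * (a * ev v x) := by
          rw [← sum_perm σ (fun x => (sg U x : ℚ) * ev (MonoidAlgebra.single σ a • v) x)]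
          refine Finset.sum_congr rfl fun x _ => ?_
          rw [Pool.Agent.Lib.MP_938ce2_ag_h67.ev_single, inv_smul_smul]
        rw [e]
        rcases hq σ with hq | hq
        · have e2 : ∀ x, (sg U (σ • x) : ℚ) * (a * ev v x) = a * ((sg U x : ℚ) * ev v x) := by
            intro x
            have : sg U (σ • x) = sg U x := by
              unfold sg
              by_cases hx : x ∈ U
              · rw [if_pos hx, if_pos ((hq x).mpr hx)]
              · rw [if_neg hx, if_neg (fun h' => hx ((hq x).mp h'))]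
            rw [this]
            ring
          rw [Finset.sum_congr rfl fun x _ => e2 x, ← Finset.mul_sum, h, mul_zero]
        · have e2 : ∀ x, (sg U (σ • x) : ℚ) * (a * ev v x) = (-a) * ((sg U x : ℚ) * ev v x) := by
            intro x
            have : sg U (σ • x) = - sg U x := by
              unfold sg
              by_cases hx : x ∈ U
              · rw [if_pos hx, if_neg (fun h' => ((hq x).mp h') hx)]
              · rw [if_neg hx, if_pos ((hq x).mpr hx), neg_neg]
            rw [this]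
            push_cast
            ring
          rw [Finset.sum_congr rfl fun x _ => e2 x, ← Finset.mul_sum, h, mul_zero]

private lemma mem_WW (hA : Act G X c g) (x₀ : X) (Φ : Finset X) (v : VV ℚ G X) :
    v ∈ WW hA x₀ Φ ↔ (∀ x, ev v (c • x) = - ev v x) ∧
      (∀ σ : G, ∑ x, (sg Φ x : ℚ) * ev v (σ • x) = 0) ∧
      ∀ U ∈ ZZ G c x₀ Φ, ∑ x, (sg U x : ℚ) * ev v x = 0 := Iff.rfl

private lemma finrank_WW (hA : Act G X c g) (x₀ : X) (Φ : Finset X) :
    finrank ℚ (Rest G c x₀ Φ) = finrank ℚ (WW hA x₀ Φ) := by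
  let e : Rest G c x₀ Φ ≃ₗ[ℚ] WW hA x₀ Φ :=
    { toFun := fun f => ⟨mkV G f.1, f.2⟩
      invFun := fun w => ⟨fun x => ev (w : VV ℚ G X) x, w.2⟩
      map_add' := fun _ _ => rfl
      map_smul' := fun _ _ => rfl
      left_inv := fun _ => rfl
      right_inv := fun _ => rfl }
  exact e.finrank_eq

/-- the module has no submodule of dimension one -/
private lemma no_one (hA : Act G X c g) (x₀ : X) (Φ : Finset X)
    (M : Submodule (MonoidAlgebra ℚ G) (VV ℚ G X)) (hM : M ≤ WW hA x₀ Φ) :
    finrank ℚ M ≠ 1 := by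
  intro h1
  obtain ⟨v, hv0, hv⟩ := finrank_eq_one_iff'.mp h1
  have hvx : ∃ x, ev (v : VV ℚ G X) x ≠ 0 := by
    by_contra hcon
    push Not at hcon
    apply hv0
    apply Subtype.ext
    apply Pool.Agent.Lib.MP_938ce2_ag_h67.ev_ext
    intro x
    rw [hcon x]
    rfl
  set w : X → ℚ := fun x => ev (v : VV ℚ G X) x with hw
  have hmul : ∀ σ : G, ∃ l : ℚ, ∀ x, w (σ • x) = l * w x := by
    intro σ
    obtain ⟨l, hl⟩ := hv (MonoidAlgebra.single σ⁻¹ (1 : ℚ) • v)
    refine ⟨l, fun x => ?_⟩
    have h2 : ev ((l • v : M) : VV ℚ G X) x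
        = ev ((MonoidAlgebra.single σ⁻¹ (1 : ℚ) • v : M) : VV ℚ G X) x := by rw [hl]
    have h3 : ev ((MonoidAlgebra.single σ⁻¹ (1 : ℚ) • v : M) : VV ℚ G X) x = w (σ • x) := by
      show ev (MonoidAlgebra.single σ⁻¹ (1 : ℚ) • (v : VV ℚ G X)) x = _
      rw [Pool.Agent.Lib.MP_938ce2_ag_h67.ev_single, one_mul, inv_inv]
    rw [h3] at h2
    rw [← h2]
    rfl
  have hS : 0 < ∑ x, w x ^ 2 := by
    obtain ⟨x, hx⟩ := hvx
    refine Finset.sum_pos' (fun y _ => sq_nonneg _) ⟨x, Finset.mem_univ _, ?_⟩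
    positivity
  have hpm : ∀ σ : G, (∀ x, w (σ • x) = w x) ∨ (∀ x, w (σ • x) = - w x) := by
    intro σ
    obtain ⟨l, hl⟩ := hmul σ
    have h2 : ∑ x, w x ^ 2 = l ^ 2 * ∑ x, w x ^ 2 := by
      conv_lhs => rw [← sum_perm σ (fun x => w x ^ 2)]
      rw [Finset.mul_sum]
      refine Finset.sum_congr rfl fun x _ => ?_
      rw [hl]
      ring
    have h3 : l ^ 2 = 1 := by
      have : (l ^ 2 - 1) * ∑ x, w x ^ 2 = 0 := by
        rw [sub_mul, ← h2]
        ring
      rcases mul_eq_zero.mp this with h | h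
      · linarith
      · exact absurd h hS.ne'
    rw [sq] at h3
    rcases mul_self_eq_one_iff.mp h3 with h | h
    · left
      intro x
      rw [hl, h, one_mul]
    · right
      intro x
      rw [hl, h, neg_one_mul]
  have hx0 : ∀ x, w x = w x₀ ∨ w x = - w x₀ := by
    intro x
    obtain ⟨σ, rfl⟩ := MulAction.exists_smul_eq G x₀ x
    rcases hpm σ with h | h
    · exact Or.inl (h x₀)
    · exact Or.inr (h x₀)
  have hne : w x₀ ≠ 0 := by
    intro h0
    obtain ⟨x, hx⟩ := hvx
    apply hx
    show w x = 0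
    rcases hx0 x with h | h
    · rw [h, h0]
    · rw [h, h0, neg_zero]
  have hnx : ∀ x, w x ≠ 0 := by
    intro x h0
    rcases hx0 x with h | h
    · exact hne (by rw [← h, h0])
    · exact hne (by rw [h0] at h; linarith)
  obtain ⟨h1, h2, h3⟩ := (mem_WW hA x₀ Φ (v : VV ℚ G X)).mp (hM v.2)
  let U : Finset X := Finset.univ.filter fun x => w x = w x₀
  have hU : ∀ x, x ∈ U ↔ w x = w x₀ := fun x => by
    simp only [U, Finset.mem_filter, Finset.mem_univ, true_and]
  have hsg : ∀ x, (sg U x : ℚ) * w x₀ = w x := by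
    intro x
    unfold sg
    by_cases hx : x ∈ U
    · rw [if_pos hx, (hU x).mp hx]
      push_cast
      ring
    · rw [if_neg hx]
      have h := (hx0 x).resolve_left (fun h => hx ((hU x).mpr h))
      rw [h]
      push_cast
      ring
  have hneg : ∀ x, - w x = w x₀ ↔ ¬ w x = w x₀ := by
    intro x
    constructor
    · intro h h'
      apply hnx x
      linarith
    · intro h
      have := (hx0 x).resolve_left h
      linarith
  have hquad : Quad G x₀ U := by
    refine ⟨(hU x₀).mpr rfl, fun σ => ?_⟩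
    rcases hpm σ with h | h
    · left
      intro x
      rw [hU, hU, h]
    · right
      intro x
      rw [hU, hU, h]
      exact hneg x
  have hcm : CMType c U := by
    intro x
    have h : w (c • x) = - w x := h1 x
    rw [hU, hU, h, hneg, not_not]
  have horth : ∑ x, sg Φ x * sg U x = 0 := by
    have h := h2 1
    have e : ∀ x, (sg Φ x : ℚ) * ev (v : VV ℚ G X) ((1 : G) • x)
        = ((sg Φ x * sg U x : ℤ) : ℚ) * w x₀ := by
      intro x
      rw [one_smul]
      show (sg Φ x : ℚ) * w x = _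
      rw [← hsg x]
      push_cast
      ring
    rw [Finset.sum_congr rfl fun x _ => e x, ← Finset.sum_mul] at h
    have h' := (mul_eq_zero.mp h).resolve_right hne
    exact_mod_cast h'
  have hfin := h3 U ((mem_ZZ G c x₀ Φ U).mpr ⟨hquad, hcm, horth⟩)
  have e : ∀ x, (sg U x : ℚ) * ev (v : VV ℚ G X) x = w x₀ := by
    intro x
    show (sg U x : ℚ) * w x = _
    rw [← hsg x, ← mul_assoc]
    have : ((sg U x : ℚ) * sg U x) = 1 := by exact_mod_cast sg_sq U x
    rw [this, one_mul]
  rw [Finset.sum_congr rfl fun x _ => e x, Finset.sum_const, Finset.card_univ, nsmul_eq_mul] at hfin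
  have hc0 : (Fintype.card X : ℚ) ≠ 0 := by
    have : 0 < Fintype.card X := Fintype.card_pos_iff.mpr ⟨x₀⟩
    exact_mod_cast this.ne'
  exact (mul_ne_zero hc0 hne) hfin

end

open Classical in
theorem rest_dim {G X : Type} [Group G] [Fintype G] [MulAction G X] [Fintype X] [DecidableEq X]
    [MulAction.IsPretransitive G X] {c : G} {g : ℕ} (hA : Act G X c g) (x₀ : X)
    (Φ : Finset X) (hΦ : CMType c Φ) (ι : Type) [Fintype ι]
    (S : ι → Submodule (MonoidAlgebra ℚ G) (VV ℚ G X))
    (hall : ∀ M : Submodule (MonoidAlgebra ℚ G) (VV ℚ G X), IsSimpleModule (MonoidAlgebra ℚ G) M →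
        OddM c M → ∃ i, Nonempty (M ≃ₗ[MonoidAlgebra ℚ G] S i))
    (h3 : ∀ i, 3 ≤ dM (S i) → Φ ∉ badC c (S i)) :
    finrank ℚ (Rest G c x₀ Φ)
      ≤ 4 * (Finset.univ.filter fun i => dM (S i) = 2 ∧ Φ ∈ badC c (S i)).card := by
  have hne : NeZero (Nat.card G : ℚ) := ⟨by exact_mod_cast Nat.card_pos.ne'⟩
  have hXne : Nonempty X := ⟨x₀⟩
  have hfinV : Module.Finite ℚ (VV ℚ G X) := inferInstance
  have hfinS : ∀ i, Module.Finite ℚ (S i) := fun i =>
    Module.Finite.of_injective ((S i).subtype.restrictScalars ℚ) Subtype.val_injective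
  have hfinH : ∀ i, Module.Finite ℚ (S i →ₗ[MonoidAlgebra ℚ G] VV ℚ G X) := fun i =>
    Pool.Agent.Lib.MP_938ce2_ag_h85d.finite_hom
  have hiso : ∀ i, ∃ V1 : Submodule (MonoidAlgebra ℚ G) (VV ℚ G X),
      (∀ f : S i →ₗ[MonoidAlgebra ℚ G] VV ℚ G X, LinearMap.range f ≤ V1) ∧
      finrank ℚ V1 ≤ dM (S i) * dM (S i) := by
    intro i
    obtain ⟨V1, hV1, hV1r⟩ := exists_isotypic (F := ℚ) (R := MonoidAlgebra ℚ G) (A := S i)
      (V := VV ℚ G X)
    exact ⟨V1, hV1, hV1r.trans (Nat.mul_le_mul_right _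
      (Pool.Agent.Lib.MP_938ce2_ag_h85d.finrank_hom_le (S i)))⟩
  choose V1 hV1 hV1r using hiso
  set I := Finset.univ.filter fun i => dM (S i) = 2 ∧ Φ ∈ badC c (S i) with hI
  have hle : WW hA x₀ Φ ≤ ⨆ i : I, V1 i := by
    rw [← IsSemisimpleModule.sSup_simples_le (WW hA x₀ Φ)]
    apply sSup_le
    rintro M ⟨hMs, hMle⟩
    have hMle' : M ≤ WW hA x₀ Φ := hMle
    have hMs' : IsSimpleModule (MonoidAlgebra ℚ G) M := hMs
    have hodd : OddM c M := fun v hv x => ((mem_WW hA x₀ Φ v).mp (hMle' hv)).1 x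
    obtain ⟨i, ⟨e⟩⟩ := hall M hMs' hodd
    have hbad : Φ ∈ badC c (S i) := by
      rw [mem_badC]
      refine ⟨hΦ, M, ⟨e.symm⟩, fun v hv => ?_⟩
      have h := ((mem_WW hA x₀ Φ v).mp (hMle' hv)).2.1 1
      simp only [one_smul] at h
      exact h
    have hd : dM (S i) = finrank ℚ M := (e.restrictScalars ℚ).finrank_eq.symm
    have hfM : Module.Finite ℚ M :=
      Module.Finite.of_injective (M.subtype.restrictScalars ℚ) Subtype.val_injective
    have hpos : 0 < finrank ℚ M := by
      have : Nontrivial M := IsSimpleModule.nontrivial (MonoidAlgebra ℚ G) M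
      exact Module.finrank_pos
    have hn1 := no_one hA x₀ Φ M hMle'
    have hn3 : ¬ 3 ≤ dM (S i) := fun h => h3 i h hbad
    have h2 : dM (S i) = 2 := by omega
    have hi : i ∈ I := by
      rw [hI, Finset.mem_filter]
      exact ⟨Finset.mem_univ _, h2, hbad⟩
    refine le_trans ?_ (le_iSup (fun i : I => V1 i) ⟨i, hi⟩)
    intro v hv
    refine hV1 i (M.subtype.comp e.symm.toLinearMap) ⟨e ⟨v, hv⟩, ?_⟩
    show ((e.symm (e ⟨v, hv⟩) : M) : VV ℚ G X) = v
    rw [LinearEquiv.symm_apply_apply]
  rw [finrank_WW hA x₀ Φ]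
  refine (finrank_le_sum (F := ℚ) (fun i : I => V1 i) (WW hA x₀ Φ) hle).trans ?_
  calc ∑ i : I, finrank ℚ (V1 i) ≤ ∑ _i : I, 4 := by
        refine Finset.sum_le_sum fun i _ => ?_
        have h := hV1r i
        have h2 := (Finset.mem_filter.mp i.2).2.1
        rw [h2] at h
        exact h
    _ = 4 * I.card := by
        rw [Finset.sum_const, Finset.card_univ, Fintype.card_coe, smul_eq_mul, mul_comm]

end Pool.Agent.Lib.MP_938ce2_ag_sub
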