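import Mathlib

/-!
Row S3 (120 lines): the maximum of a function in an invariant space of small dimension.

RECIPE. Let `d = finrank ℝ W`. Work in `EuclideanSpace ℝ X` (or with the bilinear form `∑ x, f x * g x` on `X → ℝ`). Let `P` be the
orthogonal projection on `W`; `k x y = (P (single y 1)) x` is symmetric, and `k (σ • x) (σ • y) = k x y` because `W` is
invariant (translation is orthogonal and maps `W` onto `W`), so `k x x` does not depend on `x` (transitive). The trace of `P` is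
`d`, so `card X * k x x = d`. For `f ∈ W`: `f x = ∑ y, k x y * f y`, so `f x ^ 2 ≤ (∑ y, k x y ^ 2) ∑ f ^ 2 = k x x * ∑ f ^ 2`. Alternative
without the projection: an orthonormal basis `e 1, .., e d` of `W`; `s x = ∑ i, e i x ^ 2` is invariant (another
orthonormal basis `e i (σ • ·)`; or `s x = sup {f x ^ 2 : f ∈ W, ∑ f ^ 2 ≤ 1}`, which is clearly invariant), `∑ x, s x = d`.
-/

set_option autoImplicit false
set_option linter.unusedSectionVars false

namespace Pool.Agent.Lib.MP_938ce2_ag_sub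

open Finset Module

private theorem s3_basis {X : Type} [Fintype X] (W : Submodule ℝ (X → ℝ)) :
    ∃ u : Fin (finrank ℝ W) → X → ℝ, (∀ i, u i ∈ W) ∧ (∀ i, ∑ x, u i x ^ 2 = 1) ∧
      ∀ f ∈ W, ∀ x, f x = ∑ i, (∑ y, u i y * f y) * u i x := by
  classical
  obtain ⟨W', hW'⟩ : ∃ W' : Submodule ℝ (EuclideanSpace ℝ X),
      W' = W.map ((WithLp.linearEquiv 2 ℝ (X → ℝ)).symm : (X → ℝ) →ₗ[ℝ] EuclideanSpace ℝ X) :=
    ⟨_, rfl⟩
  have hfin : finrank ℝ W' = finrank ℝ W := by
    rw [hW']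
    exact LinearEquiv.finrank_map_eq _ _
  have hmem : ∀ w ∈ W', (fun x => w x) ∈ W := by
    intro w hw
    rw [hW'] at hw
    obtain ⟨f, hf, rfl⟩ := hw
    exact hf
  have hmem' : ∀ f ∈ W, (WithLp.toLp 2 f : EuclideanSpace ℝ X) ∈ W' := by
    intro f hf
    rw [hW']
    exact ⟨f, hf, rfl⟩
  rw [← hfin]
  obtain ⟨e, -⟩ : ∃ e : OrthonormalBasis (Fin (finrank ℝ W')) ℝ W', True :=
    ⟨stdOrthonormalBasis ℝ W', trivial⟩
  refine ⟨fun i x => (e i : EuclideanSpace ℝ X) x, fun i => hmem _ (e i).2, fun i => ?_, ?_⟩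
  · have h1 : ‖(e i : EuclideanSpace ℝ X)‖ = 1 := by
      have h2 := e.orthonormal.1 i
      rwa [Submodule.coe_norm] at h2
    have h3 := EuclideanSpace.norm_sq_eq (e i : EuclideanSpace ℝ X)
    rw [h1, one_pow] at h3
    rw [h3]
    refine Finset.sum_congr rfl fun x _ => ?_
    rw [Real.norm_eq_abs, sq_abs]
  · intro f hf x
    have h1 := e.sum_repr' ⟨WithLp.toLp 2 f, hmem' f hf⟩
    have h2 := congrArg (fun w : W' => (w : EuclideanSpace ℝ X) x) h1
    beta_reduce at h2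
    have h3 : ((∑ i, inner ℝ (e i) (⟨WithLp.toLp 2 f, hmem' f hf⟩ : W') • e i : W') :
        EuclideanSpace ℝ X) x = ∑ i, (∑ y, (e i : EuclideanSpace ℝ X) y * f y) *
          (e i : EuclideanSpace ℝ X) x := by
      rw [Submodule.coe_sum]
      rw [WithLp.ofLp_sum, Finset.sum_apply]
      refine Finset.sum_congr rfl fun i _ => ?_
      rw [Submodule.coe_smul, PiLp.smul_apply, smul_eq_mul]
      congr 1
      rw [Submodule.coe_inner, PiLp.inner_apply]
      refine Finset.sum_congr rfl fun y _ => ?_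
      simp [mul_comm]
    rw [h3] at h2
    exact h2.symm

theorem sup_bound {G X : Type} [Group G] [MulAction G X] [Fintype X] [DecidableEq X]
    [MulAction.IsPretransitive G X] (W : Submodule ℝ (X → ℝ))
    (hW : ∀ σ : G, ∀ f ∈ W, (fun x => f (σ • x)) ∈ W) (f : X → ℝ) (hf : f ∈ W) (x : X) :
    (Fintype.card X : ℝ) * f x ^ 2 ≤ finrank ℝ W * ∑ y, f y ^ 2 := by
  obtain ⟨u, hu, hu1, hexp⟩ := s3_basis W
  have hpars : ∀ f ∈ W, ∑ y, f y ^ 2 = ∑ i, (∑ y, u i y * f y) ^ 2 := by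
    intro f hf
    have h1 : ∀ y, f y ^ 2 = ∑ i, (∑ z, u i z * f z) * (u i y * f y) := by
      intro y
      rw [sq]
      conv_lhs => arg 1; rw [hexp f hf y]
      rw [Finset.sum_mul]
      exact Finset.sum_congr rfl fun i _ => by ring
    rw [Finset.sum_congr rfl fun y _ => h1 y, Finset.sum_comm]
    refine Finset.sum_congr rfl fun i _ => ?_
    rw [← Finset.mul_sum, sq]
  have hle : ∀ f ∈ W, ∀ x, f x ^ 2 ≤ (∑ y, f y ^ 2) * ∑ i, u i x ^ 2 := by
    intro f hf x
    rw [hpars f hf]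
    conv_lhs => rw [hexp f hf x]
    exact Finset.sum_mul_sq_le_sq_mul_sq _ _ _
  have hmono : ∀ (σ : G) (x : X), ∑ i, u i x ^ 2 ≤ ∑ i, u i (σ • x) ^ 2 := by
    intro σ x
    obtain ⟨w, hw⟩ : ∃ w : X → ℝ, w = ∑ i, u i x • u i := ⟨_, rfl⟩
    have hwW : w ∈ W := by
      rw [hw]
      exact W.sum_mem fun i _ => W.smul_mem _ (hu i)
    have hwx : ∀ y, w y = ∑ i, u i x * u i y := by
      intro y
      rw [hw, Finset.sum_apply]
      rfl
    have hort : ∀ i, ∑ y, u i y * w y = u i x := by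
      intro i
      rw [hexp (u i) (hu i) x]
      rw [Finset.sum_congr rfl fun y _ => by rw [hwx y, Finset.mul_sum], Finset.sum_comm]
      refine Finset.sum_congr rfl fun j _ => ?_
      rw [Finset.sum_mul]
      exact Finset.sum_congr rfl fun y _ => by ring
    have hnorm : ∑ y, w y ^ 2 = ∑ i, u i x ^ 2 := by
      rw [hpars w hwW]
      exact Finset.sum_congr rfl fun i _ => by rw [hort]
    have hself : w x = ∑ i, u i x ^ 2 := by
      rw [hwx]
      exact Finset.sum_congr rfl fun i _ => (sq _).symm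
    have h1 := hle _ (hW σ⁻¹ w hwW) (σ • x)
    rw [inv_smul_smul] at h1
    have h2 : ∑ y, w (σ⁻¹ • y) ^ 2 = ∑ y, w y ^ 2 :=
      Equiv.sum_comp (MulAction.toPerm σ⁻¹ : Equiv.Perm X) fun y => w y ^ 2
    rw [h2, hnorm, hself, sq] at h1
    have h3 : 0 ≤ ∑ i, u i x ^ 2 := Finset.sum_nonneg fun i _ => sq_nonneg _
    rcases h3.eq_or_lt with h4 | h4
    · rw [← h4]
      exact Finset.sum_nonneg fun i _ => sq_nonneg _
    · exact le_of_mul_le_mul_left h1 h4
  have hconst : ∀ y, ∑ i, u i y ^ 2 = ∑ i, u i x ^ 2 := by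
    intro y
    obtain ⟨σ, rfl⟩ := MulAction.exists_smul_eq G x y
    refine le_antisymm ?_ (hmono σ x)
    have h1 := hmono σ⁻¹ (σ • x)
    rwa [inv_smul_smul] at h1
  have htot : (Fintype.card X : ℝ) * ∑ i, u i x ^ 2 = finrank ℝ W := by
    have h1 : ∑ y, ∑ i, u i y ^ 2 = (Fintype.card X : ℝ) * ∑ i, u i x ^ 2 := by
      rw [Finset.sum_congr rfl fun y _ => hconst y, Finset.sum_const, Finset.card_univ,
        nsmul_eq_mul]
    rw [← h1, Finset.sum_comm, Finset.sum_congr rfl fun i _ => hu1 i]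
    simp
  calc (Fintype.card X : ℝ) * f x ^ 2
      ≤ (Fintype.card X : ℝ) * ((∑ y, f y ^ 2) * ∑ i, u i x ^ 2) :=
        mul_le_mul_of_nonneg_left (hle f hf x) (Nat.cast_nonneg _)
    _ = (Fintype.card X : ℝ) * (∑ i, u i x ^ 2) * ∑ y, f y ^ 2 := by ring
    _ = finrank ℝ W * ∑ y, f y ^ 2 := by rw [htot]

end Pool.Agent.Lib.MP_938ce2_ag_sub
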