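import Mathlib
import Pool.Agent.Lib.MP_938ce2_ag_sub.SD

/-!
Row S1 (180 lines, finite sums): the fourth moment of a combination of quadratic functions (additive energy).

RECIPE. Write `u U x = (sg U x : ℝ)`, `f x = ∑ U ∈ Z, a U * u U x`, `n = card X`, `1` for `Finset.univ`. (1) `∑ x, f x ^ 2 = n * ∑ U ∈ Z, a U ^ 2`:
for `U ≠ U'` in `Z`, `mul U U' ≠ univ = mul U U` (if `mul U U' = univ` then `U = U'`: `mul_mul_self`), so
`∑ x, u U x * u U' x = 0` by `horth U U' U U` (`sg_sq`). (2) For a set `V` let `K V = ∑ U ∈ Z with mul U V ∈ Z, a U * a (mul U V)`. Then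
`f x ^ 2 = ∑ V ∈ 𝒱, K V * u V x` where `𝒱` is the image of `Z × Z` under `mul` (pairs `(U, U')` ↔ `(U, V = mul U U')`,
`U' = mul U V`), and `∑ x, f x ^ 4 = ∑ V, V' ∈ 𝒱, K V K V' ∑ x, u V x u V' x = n * ∑ V ∈ 𝒱, K V ^ 2` (`horth`, `sg_mul`, `sg_sq`).
(3) `K univ = ∑ a U ^ 2`. For `V ≠ univ`: Cauchy-Schwarz `K V ^ 2 ≤ rr Z V * ∑ U with mul U V ∈ Z, a U ^ 2 * a (mul U V) ^ 2
≤ R * ...`; summing over `V`: `≤ R * ∑ U ∈ Z, ∑ U' ∈ Z, a U ^ 2 * a U' ^ 2 = R * (∑ a U ^ 2) ^ 2`. Total: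
`n * ∑ f ^ 4 = n ^ 2 ∑ K V ^ 2 ≤ n ^ 2 (1 + R) (∑ a U ^ 2) ^ 2 = (1 + R) (∑ f ^ 2) ^ 2`.
-/

set_option autoImplicit false
set_option linter.unusedSectionVars false

namespace Pool.Agent.Lib.MP_938ce2_ag_sub

open Finset
open Pool.Agent.Lib.MP_938ce2_ag_h67 (sg)

private lemma eq_of_mul {X : Type} [Fintype X] [DecidableEq X] {U V : Finset X}
    (h : mul U V = Finset.univ) : U = V := by
  have h1 := mul_mul_self U V
  rw [h] at h1
  have h2 := mul_mul_self V V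
  rw [mul_self] at h2
  rw [← h1, h2]

private lemma card_pairs {X : Type} [Fintype X] [DecidableEq X] (Z : Finset (Finset X))
    (V : Finset X) : ∑ q ∈ Z ×ˢ Z, (if V = mul q.1 q.2 then (1 : ℝ) else 0) = rr Z V := by
  classical
  unfold rr
  rw [Finset.sum_product, ← Finset.sum_boole]
  refine Finset.sum_congr rfl fun U _ => ?_
  have h : ∀ W : Finset X, V = mul U W ↔ W = mul U V := by
    intro W
    constructor
    · rintro rfl
      rw [mul_comm' U W, mul_comm' U, mul_mul_self]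
    · rintro rfl
      rw [mul_comm' U V, mul_comm' U, mul_mul_self]
  simp only [h]
  rw [Finset.sum_ite_eq']

private lemma energy_aux {X : Type} [Fintype X] [DecidableEq X] (Z : Finset (Finset X)) (R : ℝ)
    (hR : 0 ≤ R) (hr : ∀ V : Finset X, V ≠ Finset.univ → (rr Z V : ℝ) ≤ R) (a : Finset X → ℝ) :
    ∑ p ∈ Z ×ˢ Z, ∑ q ∈ Z ×ˢ Z, (if mul p.1 p.2 = mul q.1 q.2 then
      (a p.1 * a p.2) * (a q.1 * a q.2) else 0) ≤ (1 + R) * (∑ U ∈ Z, a U ^ 2) ^ 2 := by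
  classical
  have hA2 : ∑ p ∈ Z ×ˢ Z, (a p.1 * a p.2) ^ 2 = (∑ U ∈ Z, a U ^ 2) ^ 2 := by
    rw [Finset.sum_product, sq (∑ U ∈ Z, a U ^ 2), Finset.sum_mul_sum]
    refine Finset.sum_congr rfl fun U _ => Finset.sum_congr rfl fun V _ => ?_
    ring
  have hdiag : ∑ p ∈ Z ×ˢ Z, (if mul p.1 p.2 = Finset.univ then a p.1 * a p.2 else 0)
      = ∑ U ∈ Z, a U ^ 2 := by
    rw [Finset.sum_product]
    refine Finset.sum_congr rfl fun U hU => ?_
    rw [Finset.sum_eq_single U]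
    · simp only [mul_self, if_true]
      ring
    · intro V _ hV
      rw [if_neg fun h => hV (eq_of_mul h).symm]
    · intro h
      exact absurd hU h
  have hpt : ∀ p q : Finset X × Finset X, (if mul p.1 p.2 = mul q.1 q.2 then
      (a p.1 * a p.2) * (a q.1 * a q.2) else 0)
      ≤ (if mul p.1 p.2 = Finset.univ then a p.1 * a p.2 else 0)
          * (if mul q.1 q.2 = Finset.univ then a q.1 * a q.2 else 0)
        + ((if mul p.1 p.2 = Finset.univ then 0 else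
            if mul p.1 p.2 = mul q.1 q.2 then (a p.1 * a p.2) ^ 2 else 0)
          + (if mul q.1 q.2 = Finset.univ then 0 else
            if mul q.1 q.2 = mul p.1 p.2 then (a q.1 * a q.2) ^ 2 else 0)) / 2 := by
    intro p q
    by_cases h1 : mul p.1 p.2 = mul q.1 q.2
    · by_cases h2 : mul q.1 q.2 = Finset.univ
      · simp [h1, h2]
      · simp only [h1, h2, if_true, if_false]
        nlinarith [sq_nonneg (a p.1 * a p.2 - a q.1 * a q.2)]
    · have h1' : ¬ mul q.1 q.2 = mul p.1 p.2 := fun h => h1 h.symm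
      rw [if_neg h1, if_neg h1, if_neg h1']
      by_cases h2 : mul p.1 p.2 = Finset.univ
      · have h3 : ¬ mul q.1 q.2 = Finset.univ := fun h => h1 (h2.trans h.symm)
        simp [h3]
      · simp [h2]
  have hS : ∑ p ∈ Z ×ˢ Z, ∑ q ∈ Z ×ˢ Z, (if mul p.1 p.2 = Finset.univ then 0 else
      if mul p.1 p.2 = mul q.1 q.2 then (a p.1 * a p.2) ^ 2 else 0)
      ≤ R * (∑ U ∈ Z, a U ^ 2) ^ 2 := by
    rw [← hA2, Finset.mul_sum]
    refine Finset.sum_le_sum fun p _ => ?_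
    by_cases h2 : mul p.1 p.2 = Finset.univ
    · simp only [h2, if_true, Finset.sum_const_zero]
      positivity
    · simp only [h2, if_false]
      have e : ∀ q : Finset X × Finset X, (if mul p.1 p.2 = mul q.1 q.2 then (a p.1 * a p.2) ^ 2 else 0)
          = (a p.1 * a p.2) ^ 2 * (if mul p.1 p.2 = mul q.1 q.2 then (1 : ℝ) else 0) := by
        intro q
        rw [mul_ite, mul_one, mul_zero]
      simp only [e]
      rw [← Finset.mul_sum, card_pairs, mul_comm]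
      exact mul_le_mul_of_nonneg_right (hr _ h2) (sq_nonneg _)
  have hS' : ∑ p ∈ Z ×ˢ Z, ∑ q ∈ Z ×ˢ Z, (if mul q.1 q.2 = Finset.univ then 0 else
      if mul q.1 q.2 = mul p.1 p.2 then (a q.1 * a q.2) ^ 2 else 0)
      ≤ R * (∑ U ∈ Z, a U ^ 2) ^ 2 := by
    rw [Finset.sum_comm]
    exact hS
  refine (Finset.sum_le_sum fun p _ => Finset.sum_le_sum fun q _ => hpt p q).trans ?_
  simp only [Finset.sum_add_distrib, ← Finset.sum_div]
  rw [← Finset.sum_mul_sum, hdiag]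
  linarith

theorem energy {X : Type} [Fintype X] [DecidableEq X] (Z : Finset (Finset X)) (R : ℝ) (hR : 0 ≤ R)
    (horth : ∀ U₁ ∈ Z, ∀ U₂ ∈ Z, ∀ U₃ ∈ Z, ∀ U₄ ∈ Z, mul U₁ U₂ ≠ mul U₃ U₄ →
      ∑ x, (sg U₁ x : ℝ) * sg U₂ x * (sg U₃ x * sg U₄ x) = 0)
    (hr : ∀ V : Finset X, V ≠ Finset.univ → (rr Z V : ℝ) ≤ R) (a : Finset X → ℝ) :
    (Fintype.card X : ℝ) * ∑ x, (∑ U ∈ Z, a U * sg U x) ^ 4
      ≤ (1 + R) * (∑ x, (∑ U ∈ Z, a U * sg U x) ^ 2) ^ 2 := by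
  classical
  set n : ℝ := (Fintype.card X : ℝ) with hn
  have husq : ∀ (U : Finset X) (x : X), (sg U x : ℝ) * sg U x = 1 := fun U x => by
    exact_mod_cast sg_sq U x
  have hum : ∀ (U V : Finset X) (x : X), (sg U x : ℝ) * sg V x = sg (mul U V) x := fun U V x => by
    rw [sg_mul]
    push_cast
    rfl
  have hf2 : ∀ x, (∑ U ∈ Z, a U * sg U x) ^ 2
      = ∑ p ∈ Z ×ˢ Z, (a p.1 * a p.2) * ((sg p.1 x : ℝ) * sg p.2 x) := by
    intro x
    rw [sq, Finset.sum_mul_sum, Finset.sum_product]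
    refine Finset.sum_congr rfl fun U _ => Finset.sum_congr rfl fun V _ => ?_
    ring
  have hf4 : ∀ x, (∑ U ∈ Z, a U * sg U x) ^ 4
      = ∑ p ∈ Z ×ˢ Z, ∑ q ∈ Z ×ˢ Z, ((a p.1 * a p.2) * (a q.1 * a q.2))
        * ((sg p.1 x : ℝ) * sg p.2 x * (sg q.1 x * sg q.2 x)) := by
    intro x
    rw [show (∑ U ∈ Z, a U * (sg U x : ℝ)) ^ 4 = ((∑ U ∈ Z, a U * (sg U x : ℝ)) ^ 2)
      * ((∑ U ∈ Z, a U * (sg U x : ℝ)) ^ 2) by ring, hf2 x, Finset.sum_mul_sum]
    refine Finset.sum_congr rfl fun U _ => Finset.sum_congr rfl fun V _ => ?_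
    ring
  have hS2 : ∑ x, (∑ U ∈ Z, a U * sg U x) ^ 2 = n * ∑ U ∈ Z, a U ^ 2 := by
    simp only [hf2]
    rw [Finset.sum_comm, Finset.sum_product, Finset.mul_sum]
    refine Finset.sum_congr rfl fun U hU => ?_
    rw [Finset.sum_eq_single U]
    · simp only [husq, mul_one]
      rw [Finset.sum_const, Finset.card_univ, nsmul_eq_mul]
      ring
    · intro V hV hVU
      rw [← Finset.mul_sum]
      have h1 := horth U hU V hV U hU U hU (by
        rw [mul_self]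
        exact fun h => hVU (eq_of_mul h).symm)
      simp only [husq, mul_one] at h1
      rw [h1, mul_zero]
    · intro h
      exact absurd hU h
  have hS4 : ∑ x, (∑ U ∈ Z, a U * sg U x) ^ 4
      = n * ∑ p ∈ Z ×ˢ Z, ∑ q ∈ Z ×ˢ Z, (if mul p.1 p.2 = mul q.1 q.2 then
        (a p.1 * a p.2) * (a q.1 * a q.2) else 0) := by
    simp only [hf4]
    rw [Finset.sum_comm, Finset.mul_sum]
    refine Finset.sum_congr rfl fun p hp => ?_
    rw [Finset.sum_comm, Finset.mul_sum]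
    refine Finset.sum_congr rfl fun q hq => ?_
    rw [← Finset.mul_sum]
    obtain ⟨hp1, hp2⟩ := Finset.mem_product.mp hp
    obtain ⟨hq1, hq2⟩ := Finset.mem_product.mp hq
    split_ifs with h
    · have h1 : ∀ x, (sg p.1 x : ℝ) * sg p.2 x * (sg q.1 x * sg q.2 x) = 1 := by
        intro x
        rw [hum, hum, h, husq]
      simp only [h1]
      rw [Finset.sum_const, Finset.card_univ, nsmul_eq_mul]
      ring
    · rw [horth _ hp1 _ hp2 _ hq1 _ hq2 h, mul_zero, mul_zero]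
  rw [hS2, hS4]
  have hE := energy_aux Z R hR hr a
  have hn2 : 0 ≤ n * n := mul_self_nonneg n
  calc n * (n * ∑ p ∈ Z ×ˢ Z, ∑ q ∈ Z ×ˢ Z, (if mul p.1 p.2 = mul q.1 q.2 then
        (a p.1 * a p.2) * (a q.1 * a q.2) else 0))
      = (n * n) * ∑ p ∈ Z ×ˢ Z, ∑ q ∈ Z ×ˢ Z, (if mul p.1 p.2 = mul q.1 q.2 then
        (a p.1 * a p.2) * (a q.1 * a q.2) else 0) := by ring
    _ ≤ (n * n) * ((1 + R) * (∑ U ∈ Z, a U ^ 2) ^ 2) := mul_le_mul_of_nonneg_left hE hn2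
    _ = (1 + R) * (n * ∑ U ∈ Z, a U ^ 2) ^ 2 := by ring

end Pool.Agent.Lib.MP_938ce2_ag_sub
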