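import Mathlib

/-!
Row S2 (100 lines, finite sums): a lower bound for the support.

RECIPE. `S = {x | f x ≠ 0}`, `n = card X`, `N² = ∑ f ^ 2 = N₁² + N₂²` (`ho`), `N > 0`. Suppose `n > max (16 A) (4 B) * |S|`.
`N² = ∑_{x ∈ S} f x (f₁ x + f₂ x) ≤ N * (a₁ + a₂)` by Cauchy-Schwarz, `a_i² = ∑_{x ∈ S} f_i x ^ 2`. `a₁² ≤ √|S| √(∑ f₁ ^ 4) ≤ √(|S| A / n) N₁² ≤ N₁² / 4`
(`h4`; `|S| A / n ≤ 1/16`), `a₂² ≤ |S| B N₂² / n ≤ N₂² / 4` (`hD`). So `N ≤ (N₁ + N₂)/2 ≤ N / √2`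
(`(N₁ + N₂)² ≤ 2 N²`), contradiction with `N > 0`. (`A`, `B` nonnegative; `|S| ≥ 1`.)
-/

set_option autoImplicit false
set_option linter.unusedSectionVars false

namespace Pool.Agent.Lib.MP_938ce2_ag_sub

open Finset

theorem density {X : Type} [Fintype X] [DecidableEq X] (f f₁ f₂ : X → ℝ)
    (hf : ∀ x, f x = f₁ x + f₂ x) (ho : ∑ x, f₁ x * f₂ x = 0) (A B : ℝ) (hA : 0 ≤ A) (hB : 0 ≤ B)
    (h4 : (Fintype.card X : ℝ) * ∑ x, f₁ x ^ 4 ≤ A * (∑ x, f₁ x ^ 2) ^ 2)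
    (hD : ∀ x, (Fintype.card X : ℝ) * f₂ x ^ 2 ≤ B * ∑ y, f₂ y ^ 2) (hne : ∃ x, f x ≠ 0) :
    (Fintype.card X : ℝ) ≤ max (16 * A) (4 * B) * (Finset.univ.filter fun x => f x ≠ 0).card := by
  classical
  set S : Finset X := Finset.univ.filter fun x => f x ≠ 0 with hS
  set n : ℝ := (Fintype.card X : ℝ) with hn
  set m : ℝ := (S.card : ℝ) with hm
  set N₁ : ℝ := ∑ x, f₁ x ^ 2 with hN₁
  set N₂ : ℝ := ∑ x, f₂ x ^ 2 with hN₂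
  obtain ⟨x₀, hx₀⟩ := hne
  have hm1 : (1 : ℝ) ≤ m := by
    have h1 : 1 ≤ S.card :=
      Finset.card_pos.2 ⟨x₀, by rw [hS, Finset.mem_filter]; exact ⟨Finset.mem_univ _, hx₀⟩⟩
    rw [hm]
    exact_mod_cast h1
  have hm0 : (0 : ℝ) < m := by linarith
  have hN₁0 : 0 ≤ N₁ := Finset.sum_nonneg fun x _ => sq_nonneg _
  have hN₂0 : 0 ≤ N₂ := Finset.sum_nonneg fun x _ => sq_nonneg _
  have hN : ∑ x, f x ^ 2 = N₁ + N₂ := by
    have h1 : ∀ x, f x ^ 2 = f₁ x ^ 2 + f₂ x ^ 2 + 2 * (f₁ x * f₂ x) := by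
      intro x
      rw [hf x]
      ring
    rw [Finset.sum_congr rfl fun x _ => h1 x, Finset.sum_add_distrib, Finset.sum_add_distrib,
      ← Finset.mul_sum, ho, mul_zero, add_zero]
  have hNS : ∑ x, f x ^ 2 = ∑ x ∈ S, f x ^ 2 := by
    rw [hS, Finset.sum_filter]
    refine Finset.sum_congr rfl fun x _ => ?_
    by_cases h : f x = 0
    · simp [h]
    · simp [h]
  have hNpos : 0 < N₁ + N₂ := by
    rw [← hN]
    exact Finset.sum_pos' (fun x _ => sq_nonneg _) ⟨x₀, Finset.mem_univ _, by positivity⟩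
  by_contra hcon
  push Not at hcon
  have h16 : 16 * A * m < n :=
    lt_of_le_of_lt (mul_le_mul_of_nonneg_right (le_max_left _ _) hm0.le) hcon
  have h4B : 4 * B * m < n :=
    lt_of_le_of_lt (mul_le_mul_of_nonneg_right (le_max_right _ _) hm0.le) hcon
  have hn0 : 0 < n := by
    have : 0 ≤ 16 * A * m := by positivity
    linarith
  set P₁ : ℝ := ∑ x ∈ S, f₁ x ^ 2 with hP₁
  set P₂ : ℝ := ∑ x ∈ S, f₂ x ^ 2 with hP₂
  have hP₁0 : 0 ≤ P₁ := Finset.sum_nonneg fun x _ => sq_nonneg _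
  have hP₂0 : 0 ≤ P₂ := Finset.sum_nonneg fun x _ => sq_nonneg _
  have hP₁b : P₁ ≤ N₁ / 4 := by
    have h1 : P₁ ^ 2 ≤ m * ∑ x ∈ S, (f₁ x ^ 2) ^ 2 := sq_sum_le_card_mul_sum_sq
    have h2 : ∑ x ∈ S, (f₁ x ^ 2) ^ 2 ≤ ∑ x, f₁ x ^ 4 := by
      have h3 : ∑ x ∈ S, (f₁ x ^ 2) ^ 2 = ∑ x ∈ S, f₁ x ^ 4 :=
        Finset.sum_congr rfl fun x _ => by ring
      rw [h3]
      exact Finset.sum_le_sum_of_subset_of_nonneg (Finset.subset_univ _) fun x _ _ => by positivity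
    have h4 : n * P₁ ^ 2 ≤ n * (N₁ / 4) ^ 2 := by
      calc n * P₁ ^ 2 ≤ n * (m * ∑ x, f₁ x ^ 4) := by gcongr; exact h1.trans (by gcongr)
        _ = m * (n * ∑ x, f₁ x ^ 4) := by ring
        _ ≤ m * (A * N₁ ^ 2) := by gcongr
        _ = (16 * A * m) * (N₁ / 4) ^ 2 := by ring
        _ ≤ n * (N₁ / 4) ^ 2 := by gcongr
    have h5 : P₁ ^ 2 ≤ (N₁ / 4) ^ 2 := le_of_mul_le_mul_left h4 hn0
    exact le_of_sq_le_sq h5 (by positivity)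
  have hP₂b : P₂ ≤ N₂ / 4 := by
    have h1 : n * P₂ ≤ m * (B * N₂) := by
      rw [hP₂, Finset.mul_sum]
      calc ∑ x ∈ S, n * f₂ x ^ 2 ≤ ∑ _x ∈ S, B * N₂ := Finset.sum_le_sum fun x _ => hD x
        _ = m * (B * N₂) := by rw [Finset.sum_const, nsmul_eq_mul]
    have h2 : n * P₂ ≤ n * (N₂ / 4) := by
      calc n * P₂ ≤ m * (B * N₂) := h1
        _ = (4 * B * m) * (N₂ / 4) := by ring
        _ ≤ n * (N₂ / 4) := by gcongr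
    exact le_of_mul_le_mul_left h2 hn0
  have hfin : N₁ + N₂ ≤ 2 * (P₁ + P₂) := by
    rw [← hN, hNS, hP₁, hP₂, ← Finset.sum_add_distrib, Finset.mul_sum]
    refine Finset.sum_le_sum fun x _ => ?_
    rw [hf x]
    nlinarith [sq_nonneg (f₁ x - f₂ x)]
  linarith

end Pool.Agent.Lib.MP_938ce2_ag_sub
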