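import Mathlib
import Pool.Agent.Lib.MP_938ce2_ag_sub.SD
import Pool.Agent.Lib.MP_938ce2_ag_sub.S1
import Pool.Agent.Lib.MP_938ce2_ag_sub.S2
import Pool.Agent.Lib.MP_938ce2_ag_sub.S3
import Pool.Agent.Lib.MP_938ce2_ag_sub.S4

/-!
Row S10 (180 lines): the support of a function orthogonal to all translates of a CM type. Uses S1 - S4.

RECIPE. `Z = ZZ G c x₀ Φ`, `n = card X = 2 g`. Over ℚ put `b U = (∑ x, f x * sg U x) / n`, `f₁ = ∑ U ∈ Z, b U • sg U`, `f₂ = f - f₁`. The `sg U`, `U ∈ Z`,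
are orthogonal with square norm `n` (`quad_orth4` with `U₃ = U₄`, or `quad_sum`), so `f₂` is orthogonal to all of them and to `f₁`. `f₂ ∈ Rest`: odd (`f` and the
`sg U` are odd: `CMType c U` gives `sg U (c • x) = - sg U x`), orthogonal to the translates of `sg Φ` (`f` by `hf`; `sg U (σ • x) = sg U (σ • x₀) * sg U x`
(`quad_smul`) and `∑ sg Φ x * sg U x = 0`). Apply `density` to the real functions `f, f₁, f₂` with `A = 1 + R`, `B = D`: `h4` is `energy` with `a U = b U`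
(`horth` from `quad_orth4`, `hr`), `hD` is `sup_bound` for the real span `W` of `Rest` (i.e. of the functions `x ↦ (h x : ℝ)`, `h ∈ Rest`): invariant under
translations (`Rest` is: oddness since `c` is central, reindex the sum, `quad_smul`), and `finrank ℝ W ≤ finrank ℚ Rest` (a ℚ-basis of `Rest` spans `W`).
-/

set_option autoImplicit false
set_option linter.unusedSectionVars false

namespace Pool.Agent.Lib.MP_938ce2_ag_sub

open Finset Module
open Pool.Agent.Lib.MP_938ce2_ag_h67 (sg)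
open Pool.Agent.Lib.MP_938ce2_ag_h60 (CMType)
open Pool.Agent.Lib.MP_938ce2_ag_u2 (Act)

private lemma orth2 {G X : Type} [Group G] [MulAction G X] [Fintype X] [DecidableEq X]
    [MulAction.IsPretransitive G X] {x₀ : X} {U V : Finset X} (hU : Quad G x₀ U)
    (hV : Quad G x₀ V) (h : U ≠ V) : ∑ x, sg U x * sg V x = 0 := by
  have h1 : mul U V ≠ Finset.univ := by
    intro h2
    apply h
    apply sg_inj
    intro x
    have h3 : sg (mul U V) x = 1 := by
      rw [h2]
      unfold sg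
      rw [if_pos (Finset.mem_univ x)]
    rw [sg_mul] at h3
    have h4 := sg_sq V x
    have h5 : sg U x * (sg V x * sg V x) = sg V x := by
      rw [← mul_assoc, h3, one_mul]
    rw [h4, mul_one] at h5
    exact h5
  have h2 := quad_sum (quad_mul hU hV) h1
  simp only [sg_mul] at h2
  exact h2

private lemma rest_translate {G X : Type} [Group G] [Fintype G] [MulAction G X] [Fintype X]
    [DecidableEq X] [MulAction.IsPretransitive G X] {c : G} (hc : ∀ σ : G, c * σ = σ * c) (x₀ : X)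
    (Φ : Finset X) (σ : G) (h : X → ℚ) (hh : h ∈ Rest G c x₀ Φ) :
    (fun x => h (σ • x)) ∈ Rest G c x₀ Φ := by
  obtain ⟨h1, h2, h3⟩ := hh
  refine ⟨fun x => ?_, fun τ => ?_, fun U hU => ?_⟩
  · show h (σ • (c • x)) = - h (σ • x)
    rw [smul_smul, ← hc, ← smul_smul, h1]
  · show ∑ x, (sg Φ x : ℚ) * h (σ • (τ • x)) = 0
    have h4 := h2 (σ * τ)
    simp only [← smul_smul] at h4
    exact h4
  · show ∑ x, (sg U x : ℚ) * h (σ • x) = 0
    have hQ := ((mem_ZZ G c x₀ Φ U).mp hU).1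
    have h4 : ∑ x, (sg U x : ℚ) * h (σ • x) = ∑ y, (sg U (σ⁻¹ • y) : ℚ) * h y := by
      rw [← Equiv.sum_comp (MulAction.toPerm σ) (fun y => (sg U (σ⁻¹ • y) : ℚ) * h y)]
      refine Finset.sum_congr rfl fun x _ => ?_
      rw [MulAction.toPerm_apply, inv_smul_smul]
    rw [h4]
    have h5 : ∀ y, (sg U (σ⁻¹ • y) : ℚ) * h y = (sg U (σ⁻¹ • x₀) : ℚ) * ((sg U y : ℚ) * h y) := by
      intro y
      rw [quad_smul hQ σ⁻¹ y]
      push_cast
      ring
    simp only [h5]
    rw [← Finset.mul_sum, h3 U hU, mul_zero]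

private lemma span_finrank {X : Type} [Fintype X] [DecidableEq X] (P : Submodule ℚ (X → ℚ)) :
    finrank ℝ (Submodule.span ℝ ((fun (h : X → ℚ) (x : X) => (h x : ℝ)) '' (P : Set (X → ℚ))))
      ≤ finrank ℚ P := by
  let b := Module.finBasis ℚ P
  let v : Fin (finrank ℚ P) → (X → ℝ) := fun i x => (((b i : P) : X → ℚ) x : ℝ)
  have h1 : Submodule.span ℝ ((fun (h : X → ℚ) (x : X) => (h x : ℝ)) '' (P : Set (X → ℚ)))
      ≤ Submodule.span ℝ (Set.range v) := by
    rw [Submodule.span_le]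
    rintro _ ⟨h, hh, rfl⟩
    have h2 := b.sum_repr ⟨h, hh⟩
    have h3 : (fun x => (h x : ℝ)) = ∑ i, ((b.repr ⟨h, hh⟩ i : ℚ) : ℝ) • v i := by
      funext x
      have h4 : h = ∑ i, (b.repr ⟨h, hh⟩ i) • ((b i : P) : X → ℚ) := by
        have h5 : ((∑ i, (b.repr ⟨h, hh⟩ i) • b i : P) : X → ℚ) = h := congrArg (Subtype.val) h2
        conv_lhs => rw [← h5]
        simp only [AddSubmonoidClass.coe_finsetSum, SetLike.val_smul]
      have h6 : h x = ∑ i, (b.repr ⟨h, hh⟩ i) * ((b i : P) : X → ℚ) x := by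
        have h7 := congrFun h4 x
        rw [Finset.sum_apply] at h7
        exact h7
      rw [Finset.sum_apply, h6]
      push_cast
      refine Finset.sum_congr rfl fun i _ => ?_
      rfl
    show (fun x => (h x : ℝ)) ∈ Submodule.span ℝ (Set.range v)
    rw [h3]
    exact Submodule.sum_mem _ fun i _ =>
      Submodule.smul_mem _ _ (Submodule.subset_span (Set.mem_range_self i))
  calc finrank ℝ (Submodule.span ℝ ((fun (h : X → ℚ) (x : X) => (h x : ℝ)) '' (P : Set (X → ℚ))))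
      ≤ finrank ℝ (Submodule.span ℝ (Set.range v)) := Submodule.finrank_mono h1
    _ ≤ Fintype.card (Fin (finrank ℚ P)) := finrank_range_le_card v
    _ = finrank ℚ P := Fintype.card_fin _

private lemma sg_odd {G X : Type} [Group G] [MulAction G X] [Fintype X] [DecidableEq X] {c : G}
    {U : Finset X} (h : CMType c U) (x : X) : sg U (c • x) = - sg U x := by
  have h1 := h x
  unfold sg
  by_cases h2 : x ∈ U
  · rw [if_neg (h1.mp h2), if_pos h2]
  · have h3 : c • x ∈ U := by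
      by_contra h4
      exact h2 (h1.mpr h4)
    rw [if_pos h3, if_neg h2]
    norm_num

theorem supp_bound {G X : Type} [Group G] [Fintype G] [MulAction G X] [Fintype X] [DecidableEq X]
    [MulAction.IsPretransitive G X] {c : G} {g : ℕ} (hA : Act G X c g) (x₀ : X)
    (Φ : Finset X) (hΦ : CMType c Φ) (R D : ℝ) (hR : 0 ≤ R)
    (hr : ∀ V : Finset X, V ≠ Finset.univ → (rr (ZZ G c x₀ Φ) V : ℝ) ≤ R)
    (hD : (finrank ℚ (Rest G c x₀ Φ) : ℝ) ≤ D) (f : X → ℤ) (hodd : ∀ x, f (c • x) = - f x)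
    (hf : ∀ σ : G, ∑ x, sg Φ x * f (σ • x) = 0) (hne : ∃ x, f x ≠ 0) :
    (2 * g : ℝ) ≤ max (16 * (1 + R)) (4 * D) * (Finset.univ.filter fun x => f x ≠ 0).card := by
  classical
  set Z := ZZ G c x₀ Φ with hZ
  have hn : (Fintype.card X : ℝ) = 2 * g := by
    rw [hA.card]
    push_cast
    ring
  have hnQ : (0 : ℚ) < (Fintype.card X : ℚ) := by
    have h1 : 0 < Fintype.card X := by
      rw [hA.card]
      have := hA.pos
      omega
    exact_mod_cast h1
  have hzq : ∀ U ∈ Z, Quad G x₀ U := fun U hU => ((mem_ZZ G c x₀ Φ U).mp hU).1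
  let b : Finset X → ℚ := fun U => (∑ x, (f x : ℚ) * (sg U x : ℚ)) / (Fintype.card X : ℚ)
  have hsq : ∀ U : Finset X, ∀ V ∈ Z, U ∈ Z →
      ∑ x, (sg U x : ℚ) * (sg V x : ℚ) = if V = U then (Fintype.card X : ℚ) else 0 := by
    intro U V hV hU
    by_cases h : V = U
    · subst h
      rw [if_pos rfl]
      have h1 : ∀ x, (sg V x : ℚ) * (sg V x : ℚ) = 1 := by
        intro x
        have := sg_sq V x
        exact_mod_cast this
      simp only [h1]
      simp
    · rw [if_neg h]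
      have h1 := orth2 (hzq U hU) (hzq V hV) (fun h2 => h h2.symm)
      exact_mod_cast h1
  let f₁ : X → ℚ := fun x => ∑ U ∈ Z, b U * (sg U x : ℚ)
  let f₂ : X → ℚ := fun x => (f x : ℚ) - f₁ x
  have hU2 : ∀ U ∈ Z, ∑ x, (sg U x : ℚ) * f₂ x = 0 := by
    intro U hU
    have h1 : ∑ x, (sg U x : ℚ) * f₁ x = (Fintype.card X : ℚ) * b U := by
      have h2 : ∑ x, (sg U x : ℚ) * f₁ x
          = ∑ V ∈ Z, b V * ∑ x, (sg U x : ℚ) * (sg V x : ℚ) := by
        show ∑ x, (sg U x : ℚ) * (∑ V ∈ Z, b V * (sg V x : ℚ)) = _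
        simp only [Finset.mul_sum]
        rw [Finset.sum_comm]
        refine Finset.sum_congr rfl fun V _ => Finset.sum_congr rfl fun x _ => ?_
        ring
      rw [h2, Finset.sum_congr rfl fun V hV => by rw [hsq U V hV hU]]
      simp only [mul_ite, mul_zero]
      rw [Finset.sum_ite_eq' Z U, if_pos hU]
      ring
    have h3 : (Fintype.card X : ℚ) * b U = ∑ x, (sg U x : ℚ) * (f x : ℚ) := by
      show (Fintype.card X : ℚ) * ((∑ x, (f x : ℚ) * (sg U x : ℚ)) / (Fintype.card X : ℚ)) = _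
      rw [mul_div_cancel₀ _ hnQ.ne']
      refine Finset.sum_congr rfl fun x _ => ?_
      ring
    have h4 : ∀ x, (sg U x : ℚ) * f₂ x = (sg U x : ℚ) * (f x : ℚ) - (sg U x : ℚ) * f₁ x := by
      intro x
      show (sg U x : ℚ) * ((f x : ℚ) - f₁ x) = _
      ring
    simp only [h4]
    rw [Finset.sum_sub_distrib, h1, h3, sub_self]
  have hrest : f₂ ∈ Rest G c x₀ Φ := by
    refine ⟨fun x => ?_, fun σ => ?_, fun U hU => hU2 U hU⟩
    · show ((f (c • x) : ℤ) : ℚ) - ∑ U ∈ Z, b U * (sg U (c • x) : ℚ)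
        = -((f x : ℚ) - ∑ U ∈ Z, b U * (sg U x : ℚ))
      rw [hodd x]
      have h1 : ∀ U ∈ Z, b U * (sg U (c • x) : ℚ) = -(b U * (sg U x : ℚ)) := by
        intro U hU
        rw [sg_odd ((mem_ZZ G c x₀ Φ U).mp hU).2.1 x]
        push_cast
        ring
      rw [Finset.sum_congr rfl h1, Finset.sum_neg_distrib]
      push_cast
      ring
    · show ∑ x, (sg Φ x : ℚ) * (((f (σ • x) : ℤ) : ℚ) - ∑ U ∈ Z, b U * (sg U (σ • x) : ℚ)) = 0
      have h1 : ∑ x, (sg Φ x : ℚ) * ((f (σ • x) : ℤ) : ℚ) = 0 := by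
        have := hf σ
        exact_mod_cast this
      have h2 : ∑ x, (sg Φ x : ℚ) * (∑ U ∈ Z, b U * (sg U (σ • x) : ℚ)) = 0 := by
        simp only [Finset.mul_sum]
        rw [Finset.sum_comm]
        refine Finset.sum_eq_zero fun U hU => ?_
        have hm := (mem_ZZ G c x₀ Φ U).mp hU
        have h3 : ∀ x, (sg Φ x : ℚ) * (b U * (sg U (σ • x) : ℚ))
            = b U * (sg U (σ • x₀) : ℚ) * ((sg Φ x : ℚ) * (sg U x : ℚ)) := by
          intro x
          rw [quad_smul hm.1 σ x]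
          push_cast
          ring
        simp only [h3]
        rw [← Finset.mul_sum]
        have h4 : ∑ x, (sg Φ x : ℚ) * (sg U x : ℚ) = 0 := by
          have := hm.2.2
          exact_mod_cast this
        rw [h4, mul_zero]
      simp only [mul_sub]
      rw [Finset.sum_sub_distrib, h1, h2, sub_zero]
  -- the real functions
  have ho : ∑ x, ((f₁ x : ℚ) : ℝ) * ((f₂ x : ℚ) : ℝ) = 0 := by
    have h1 : ∑ x, f₁ x * f₂ x = 0 := by
      have h2 : ∀ x, f₁ x * f₂ x = ∑ U ∈ Z, b U * ((sg U x : ℚ) * f₂ x) := by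
        intro x
        show (∑ U ∈ Z, b U * (sg U x : ℚ)) * f₂ x = _
        rw [Finset.sum_mul]
        refine Finset.sum_congr rfl fun U _ => ?_
        ring
      simp only [h2]
      rw [Finset.sum_comm]
      refine Finset.sum_eq_zero fun U hU => ?_
      rw [← Finset.mul_sum, hU2 U hU, mul_zero]
    exact_mod_cast h1
  have h4 : (Fintype.card X : ℝ) * ∑ x, ((f₁ x : ℚ) : ℝ) ^ 4
      ≤ (1 + R) * (∑ x, ((f₁ x : ℚ) : ℝ) ^ 2) ^ 2 := by
    have h1 := energy Z R hR
      (fun U₁ h1 U₂ h2 U₃ h3 U₄ h4 h => quad_orth4 (hzq U₁ h1) (hzq U₂ h2) (hzq U₃ h3) (hzq U₄ h4) h)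
      hr (fun U => ((b U : ℚ) : ℝ))
    have h2 : ∀ x, ((f₁ x : ℚ) : ℝ) = ∑ U ∈ Z, ((b U : ℚ) : ℝ) * (sg U x : ℝ) := by
      intro x
      show ((∑ U ∈ Z, b U * (sg U x : ℚ) : ℚ) : ℝ) = _
      push_cast
      rfl
    simp only [h2]
    exact h1
  have hB : (0 : ℝ) ≤ D := le_trans (Nat.cast_nonneg _) hD
  have hD2 : ∀ x, (Fintype.card X : ℝ) * ((f₂ x : ℚ) : ℝ) ^ 2 ≤ D * ∑ y, ((f₂ y : ℚ) : ℝ) ^ 2 := by
    intro x
    let W : Submodule ℝ (X → ℝ) :=
      Submodule.span ℝ ((fun (h : X → ℚ) (x : X) => (h x : ℝ)) '' (Rest G c x₀ Φ : Set (X → ℚ)))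
    have hW : ∀ σ : G, ∀ u ∈ W, (fun x => u (σ • x)) ∈ W := by
      intro σ u hu
      have h1 : W ≤ Submodule.comap (LinearMap.funLeft ℝ ℝ (fun x : X => σ • x)) W := by
        refine Submodule.span_le.mpr ?_
        rintro _ ⟨h, hh, rfl⟩
        exact Submodule.subset_span ⟨fun x => h (σ • x),
          rest_translate hA.comm x₀ Φ σ h hh, rfl⟩
      exact h1 hu
    have hm : (fun y => ((f₂ y : ℚ) : ℝ)) ∈ W := Submodule.subset_span ⟨f₂, hrest, rfl⟩
    have h1 := sup_bound (G := G) W hW (fun y => ((f₂ y : ℚ) : ℝ)) hm x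
    refine le_trans h1 ?_
    refine mul_le_mul_of_nonneg_right ?_ (Finset.sum_nonneg fun y _ => sq_nonneg _)
    refine le_trans ?_ hD
    exact_mod_cast span_finrank (Rest G c x₀ Φ)
  have hfin := density (fun x => ((f x : ℤ) : ℝ)) (fun x => ((f₁ x : ℚ) : ℝ))
    (fun x => ((f₂ x : ℚ) : ℝ))
    (fun x => by
      show ((f x : ℤ) : ℝ) = ((f₁ x : ℚ) : ℝ) + (((f x : ℚ) - f₁ x : ℚ) : ℝ)
      push_cast
      ring) ho (1 + R) D (by linarith) hB h4 hD2
    (by
      obtain ⟨x, hx⟩ := hne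
      exact ⟨x, by exact_mod_cast hx⟩)
  rw [hn] at hfin
  have hcard : (Finset.univ.filter fun x => ((f x : ℤ) : ℝ) ≠ 0)
      = Finset.univ.filter fun x => f x ≠ 0 := by
    ext x
    simp
  rw [hcard] at hfin
  exact hfin

end Pool.Agent.Lib.MP_938ce2_ag_sub
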