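import Mathlib
import Pool.Agent.Lib.MP_938ce2_ag_sub.SD
import Pool.Agent.Lib.MP_938ce2_ag_sub.S4
import Pool.Agent.Lib.MP_938ce2_ag_u3.CountCs

/-!
Row S5 (120 lines): the share of the CM types orthogonal to given odd quadratic sets. Uses S4 (`quad_rank`, `quad_smul`).

RECIPE. `T = B.card`. If `√(g / T) < 6` the right side is at least 1 and the left side at most 1 (`2 ^ g` CM types,
`u2.card_cm_all`). Otherwise let `s = ⌊√(g / T) / 2⌋ ≥ 3` and `q` a prime with `s < q ≤ 2 s` (Bertrand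
`Nat.exists_prime_lt_and_le_two_mul`), so `q ^ 2 ≤ g / T` and `q ≥ √(g / T) / 3`. Let `C` be the span over `ZMod q` of the functions `sg U`,
`U ∈ B`: odd (`CMType c U`), invariant (`quad_smul`), of dimension `T` (`quad_rank`). If `Φ` is orthogonal to the `sg U` over ℤ then it is
orthogonal to `C`. `u3.card_orth_cs hA hq C hodd hinv hpos`: the number is at most `2 ^ g (csum q (g / T) / q) ^ T`, and
`csum q ρ ≤ 1 + 3 exp (-(ρ / q ^ 2)) ≤ 1 + 3 / e ≤ 7 / 3` (`h67.csum_le_refined`, `ρ = g / T ≥ q ^ 2`).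
So the share is at most `((7/3) * 3 / √(g / T)) ^ T = (7 √(T / g)) ^ T`.
-/

set_option autoImplicit false
set_option linter.unusedSectionVars false

namespace Pool.Agent.Lib.MP_938ce2_ag_sub

open Finset Module
open Pool.Agent.Lib.MP_938ce2_ag_h67 (sg)
open Pool.Agent.Lib.MP_938ce2_ag_h60 (CMType)
open Pool.Agent.Lib.MP_938ce2_ag_u2 (Act)

open Classical in
private lemma s5_le {G X : Type} [Group G] [MulAction G X] [Fintype X] [DecidableEq X]
    {c : G} {g : ℕ} (hA : Act G X c g) (S : Finset (Finset X)) (hS : ∀ Φ ∈ S, CMType c Φ) :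
    (S.card : ℝ) ≤ 2 ^ g := by
  have h1 : S.card ≤ (Finset.univ.filter fun Φ : Finset X => CMType c Φ).card :=
    Finset.card_le_card fun Φ hΦ => Finset.mem_filter.2 ⟨Finset.mem_univ _, hS Φ hΦ⟩
  have h2 := Pool.Agent.Lib.MP_938ce2_ag_u2.card_cm_all hA
  rw [Nat.card_eq_fintype_card, Fintype.card_subtype] at h2
  rw [h2] at h1
  exact_mod_cast h1

private lemma s5_sg_c {G X : Type} [Group G] [MulAction G X] [Fintype X] [DecidableEq X]
    {c : G} {U : Finset X} (hU : CMType c U) (x : X) : sg U (c • x) = - sg U x := by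
  unfold sg
  by_cases h : x ∈ U
  · rw [if_pos h, if_neg ((hU x).1 h)]
  · rw [if_neg h, if_pos (by by_contra h'; exact h ((hU x).2 h')), neg_neg]

private lemma s5_csum_nonneg {q : ℕ} [Fact q.Prime] (ρ : ℝ) :
    0 ≤ Pool.Agent.Lib.MP_938ce2_ag_h67.csum q ρ :=
  Finset.sum_nonneg fun _ _ => Real.rpow_nonneg (abs_nonneg _) _

open Classical in
theorem card_orth {G X : Type} [Group G] [Fintype G] [MulAction G X] [Fintype X] [DecidableEq X]
    [MulAction.IsPretransitive G X] {c : G} {g : ℕ} (hA : Act G X c g) (x₀ : X)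
    (B : Finset (Finset X)) (hB : ∀ U ∈ B, Quad G x₀ U ∧ CMType c U) (hpos : 1 ≤ B.card) :
    ((Finset.univ.filter fun Φ : Finset X =>
        CMType c Φ ∧ ∀ U ∈ B, ∑ x, sg Φ x * sg U x = 0).card : ℝ)
      ≤ (7 * √((B.card : ℝ) / g)) ^ B.card * 2 ^ g := by
  have hg0 : (0 : ℝ) < g := by exact_mod_cast hA.pos
  have hT0 : (0 : ℝ) < B.card := by exact_mod_cast hpos
  obtain ⟨ρ, hρ⟩ : ∃ ρ : ℝ, ρ = (g : ℝ) / B.card := ⟨_, rfl⟩
  have hρ0 : 0 < ρ := hρ ▸ div_pos hg0 hT0
  obtain ⟨w, hw⟩ : ∃ w : ℝ, w = √ρ := ⟨_, rfl⟩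
  have hw0 : 0 < w := hw ▸ Real.sqrt_pos.2 hρ0
  have hw2 : w ^ 2 = ρ := hw ▸ Real.sq_sqrt hρ0.le
  have hinv : √((B.card : ℝ) / g) = w⁻¹ := by
    rw [hw, ← Real.sqrt_inv, hρ, inv_div]
  rw [hinv]
  by_cases hcase : w < 6
  · refine (s5_le hA _ fun Φ hΦ => (Finset.mem_filter.1 hΦ).2.1).trans ?_
    have h1 : (1 : ℝ) ≤ 7 * w⁻¹ := by
      rw [← div_eq_mul_inv, le_div_iff₀ hw0]
      linarith
    have h2 : (1 : ℝ) ≤ (7 * w⁻¹) ^ B.card := one_le_pow₀ h1
    have h3 : (0 : ℝ) < 2 ^ g := by positivity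
    nlinarith
  · rw [not_lt] at hcase
    obtain ⟨n, hn⟩ : ∃ n : ℕ, n = ⌊w / 2⌋₊ := ⟨_, rfl⟩
    have hn1 : (n : ℝ) ≤ w / 2 := hn ▸ Nat.floor_le (by positivity)
    have hn2 : w / 2 < n + 1 := hn ▸ Nat.lt_floor_add_one _
    have hn3 : 3 ≤ n := by
      rw [hn]
      exact Nat.le_floor (by push_cast; linarith)
    obtain ⟨q, hqp, hq1, hq2⟩ := Nat.exists_prime_lt_and_le_two_mul n (by omega)
    have hfact : Fact q.Prime := ⟨hqp⟩
    have hqne : q ≠ 2 := by omega
    have hqodd : Odd q := hqp.odd_of_ne_two hqne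
    have hqw : (q : ℝ) ≤ w := by
      have h1 : (q : ℝ) ≤ 2 * n := by exact_mod_cast hq2
      linarith
    have hqw' : w / 2 ≤ q := by
      have h1 : (n : ℝ) + 1 ≤ q := by exact_mod_cast hq1
      linarith
    have hq0 : (0 : ℝ) < q := by exact_mod_cast hqp.pos
    obtain ⟨C, hC⟩ : ∃ C : Submodule (ZMod q) (X → ZMod q), C = Submodule.span (ZMod q)
      ((fun (U : Finset X) (x : X) => (sg U x : ZMod q)) '' (B : Set (Finset X))) := ⟨_, rfl⟩
    have hrank : finrank (ZMod q) C = B.card := by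
      rw [hC]
      exact quad_rank (x₀ := x₀) (G := G) q hqne B fun U hU => (hB U hU).1
    have hodd : ∀ y ∈ C, ∀ x, y (c • x) = - y x := by
      intro y hy x
      rw [hC] at hy
      induction hy using Submodule.span_induction with
      | mem y hy =>
        obtain ⟨U, hU, rfl⟩ := hy
        beta_reduce
        rw [s5_sg_c (hB U hU).2, Int.cast_neg]
      | zero => rw [Pi.zero_apply, Pi.zero_apply, neg_zero]
      | add y z _ _ h1 h2 => rw [Pi.add_apply, Pi.add_apply, h1, h2, neg_add]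
      | smul a y _ h1 => rw [Pi.smul_apply, Pi.smul_apply, h1, smul_neg]
    have hinvC : ∀ σ : G, ∀ y ∈ C, (fun x => y (σ • x)) ∈ C := by
      intro σ y hy
      have h1 : C ≤ C.comap (LinearMap.funLeft (ZMod q) (ZMod q) fun x : X => σ • x) := by
        conv_lhs => rw [hC]
        rw [Submodule.span_le]
        rintro _ ⟨U, hU, rfl⟩
        have h2 : (LinearMap.funLeft (ZMod q) (ZMod q) fun x : X => σ • x)
            (fun x : X => (sg U x : ZMod q)) =
            (sg U (σ • x₀) : ZMod q) • (fun x : X => (sg U x : ZMod q)) := by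
          funext x
          rw [LinearMap.funLeft_apply, Pi.smul_apply, smul_eq_mul,
            quad_smul (hB U hU).1 σ x, Int.cast_mul]
        change (LinearMap.funLeft (ZMod q) (ZMod q) fun x : X => σ • x)
            (fun x : X => (sg U x : ZMod q)) ∈ C
        rw [h2]
        refine C.smul_mem _ ?_
        rw [hC]
        exact Submodule.subset_span ⟨U, hU, rfl⟩
      exact h1 hy
    have hbound := Pool.Agent.Lib.MP_938ce2_ag_u3.card_orth_cs hA hqodd C hodd hinvC (by
      rw [hrank]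
      exact hpos)
    rw [hrank, ← hρ] at hbound
    have hsub : (Finset.univ.filter fun Φ : Finset X =>
        CMType c Φ ∧ ∀ U ∈ B, ∑ x, sg Φ x * sg U x = 0).card ≤
        (Finset.univ.filter fun Φ : Finset X =>
        CMType c Φ ∧ ∀ y ∈ C, ∑ x, (sg Φ x : ZMod q) * y x = 0).card := by
      refine Finset.card_le_card fun Φ hΦ => ?_
      obtain ⟨-, h1, h2⟩ := Finset.mem_filter.1 hΦ
      refine Finset.mem_filter.2 ⟨Finset.mem_univ _, h1, fun y hy => ?_⟩
      rw [hC] at hy
      induction hy using Submodule.span_induction with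
      | mem y hy =>
        obtain ⟨U, hU, rfl⟩ := hy
        have h3 := congrArg (Int.cast : ℤ → ZMod q) (h2 U hU)
        rw [Int.cast_sum, Int.cast_zero] at h3
        simpa only [Int.cast_mul] using h3
      | zero => simp
      | add y z _ _ h3 h4 =>
        simp only [Pi.add_apply, mul_add, Finset.sum_add_distrib]
        rw [h3, h4, add_zero]
      | smul a y _ h3 =>
        have h4 : ∀ x, (sg Φ x : ZMod q) * (a • y) x = a * ((sg Φ x : ZMod q) * y x) := by
          intro x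
          rw [Pi.smul_apply, smul_eq_mul]
          ring
        simp only [h4]
        rw [← Finset.mul_sum, h3, mul_zero]
    have hcs : Pool.Agent.Lib.MP_938ce2_ag_h67.csum q ρ ≤ 7 / 3 := by
      have hq2ρ : (q : ℝ) ^ 2 ≤ ρ := by
        rw [← hw2]
        exact pow_le_pow_left₀ hq0.le hqw 2
      refine (Pool.Agent.Lib.MP_938ce2_ag_h67.csum_le_refined hqodd hq2ρ).trans ?_
      have h1 : Real.exp (-(ρ / (q : ℝ) ^ 2)) ≤ Real.exp (-1) := by
        refine Real.exp_le_exp.2 (neg_le_neg ?_)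
        rw [le_div_iff₀ (by positivity)]
        linarith
      have h2 : Real.exp (-1) ≤ 4 / 9 := by
        rw [Real.exp_neg]
        have h3 : (9 / 4 : ℝ) ≤ Real.exp 1 := by
          have := Real.exp_one_gt_d9
          linarith
        calc (Real.exp 1)⁻¹ ≤ (9 / 4 : ℝ)⁻¹ := inv_anti₀ (by norm_num) h3
          _ = 4 / 9 := by norm_num
      linarith
    have hcs0 := s5_csum_nonneg (q := q) ρ
    have hfin : ((Finset.univ.filter fun Φ : Finset X =>
        CMType c Φ ∧ ∀ U ∈ B, ∑ x, sg Φ x * sg U x = 0).card : ℝ) * (q : ℝ) ^ B.card ≤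
        2 ^ g * (7 / 3) ^ B.card := by
      refine le_trans (mul_le_mul_of_nonneg_right (Nat.cast_le.2 hsub) (by positivity)) ?_
      refine hbound.trans ?_
      exact mul_le_mul_of_nonneg_left (pow_le_pow_left₀ hcs0 hcs _) (by positivity)
    rw [← le_div_iff₀ (by positivity)] at hfin
    refine hfin.trans ?_
    rw [mul_div_assoc, ← div_pow, mul_comm]
    refine mul_le_mul_of_nonneg_right (pow_le_pow_left₀ (by positivity) ?_ _) (by positivity)
    rw [div_le_iff₀ hq0, ← div_eq_mul_inv, div_mul_eq_mul_div, le_div_iff₀ hw0]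
    linarith

end Pool.Agent.Lib.MP_938ce2_ag_sub
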