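import Mathlib

/-!
Row S6 (80 lines, combinatorics): the number of tuples with distinct pairs.

RECIPE. Induction on `s`: a tuple `f : Fin s → α` with values in `R` such that the `2 s` elements `f i`, `τ (f i)` are distinct extends
(`Fin.cons` or `Fin.snoc`) by every element of `R` outside these `2 s` elements (`R` is stable under the involution `τ`): at least
`R.card - 2 s ≥ R.card / 2` choices while `2 s ≤ R.card / 2`.
-/

set_option autoImplicit false
set_option linter.unusedSectionVars false

namespace Pool.Agent.Lib.MP_938ce2_ag_sub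

open Finset

open Classical in
theorem tuples_ge {α : Type} [Fintype α] (R : Finset α) (τ : α → α)
    (hτ : ∀ a ∈ R, τ a ∈ R ∧ τ (τ a) = a ∧ τ a ≠ a) (s : ℕ) (hs : 4 * s ≤ R.card) :
    ((R.card : ℝ) / 2) ^ s ≤ ((Finset.univ.filter fun f : Fin s → α =>
      (∀ i, f i ∈ R) ∧ ∀ i j, i ≠ j → f i ≠ f j ∧ f i ≠ τ (f j)).card : ℝ) := by
  induction s with
  | zero =>
    rw [pow_zero]
    have h1 : 0 < (Finset.univ.filter fun f : Fin 0 → α =>
      (∀ i, f i ∈ R) ∧ ∀ i j, i ≠ j → f i ≠ f j ∧ f i ≠ τ (f j)).card := by
      refine Finset.card_pos.2 ⟨Fin.elim0, ?_⟩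
      rw [Finset.mem_filter]
      exact ⟨Finset.mem_univ _, fun i => i.elim0, fun i => i.elim0⟩
    exact_mod_cast h1
  | succ s ih =>
    have ih' := ih (by omega)
    set D : Finset (Fin s → α) := Finset.univ.filter fun f : Fin s → α =>
      (∀ i, f i ∈ R) ∧ ∀ i j, i ≠ j → f i ≠ f j ∧ f i ≠ τ (f j) with hD
    set D' : Finset (Fin (s + 1) → α) := Finset.univ.filter fun f : Fin (s + 1) → α =>
      (∀ i, f i ∈ R) ∧ ∀ i j, i ≠ j → f i ≠ f j ∧ f i ≠ τ (f j) with hD'
    let ext : (Fin s → α) → Finset α := fun f => R.filter fun a => ∀ i, a ≠ f i ∧ a ≠ τ (f i)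
    have hext : ∀ f : Fin s → α, R.card ≤ 2 * (ext f).card := by
      intro f
      have h1 : R \ (Finset.univ.image f ∪ Finset.univ.image fun i => τ (f i)) ⊆ ext f := by
        intro a ha
        rw [Finset.mem_sdiff, Finset.mem_union, Finset.mem_image, Finset.mem_image] at ha
        push Not at ha
        rw [Finset.mem_filter]
        exact ⟨ha.1, fun i => ⟨fun h => ha.2.1 i (Finset.mem_univ _) h.symm,
          fun h => ha.2.2 i (Finset.mem_univ _) h.symm⟩⟩
      have h2 := Finset.card_le_card h1
      have h3 := Finset.le_card_sdiff (Finset.univ.image f ∪ Finset.univ.image fun i => τ (f i)) R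
      have h4 : (Finset.univ.image f ∪ Finset.univ.image fun i => τ (f i)).card ≤ s + s := by
        refine (Finset.card_union_le _ _).trans (Nat.add_le_add ?_ ?_)
        · exact Finset.card_image_le.trans (by simp)
        · exact Finset.card_image_le.trans (by simp)
      omega
    have hcard : (D.sigma ext).card ≤ D'.card := by
      refine Finset.card_le_card_of_injOn (fun x => Fin.cons x.2 x.1) ?_ ?_
      · rintro ⟨f, a⟩ hx
        rw [Finset.mem_coe, Finset.mem_sigma] at hx
        obtain ⟨hf, ha⟩ := hx
        simp only [hD, Finset.mem_filter, Finset.mem_univ, true_and] at hf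
        obtain ⟨hf1, hf2⟩ := hf
        obtain ⟨haR, ha2⟩ := Finset.mem_filter.1 ha
        simp only at haR ha2
        show (Fin.cons a f : Fin (s + 1) → α) ∈ (D' : Set _)
        rw [Finset.mem_coe, hD', Finset.mem_filter]
        refine ⟨Finset.mem_univ _, ?_, ?_⟩
        · intro i
          refine Fin.cases ?_ (fun i => ?_) i
          · rw [Fin.cons_zero]; exact haR
          · rw [Fin.cons_succ]; exact hf1 i
        · intro i j
          refine Fin.cases ?_ (fun i => ?_) i
          · refine Fin.cases ?_ (fun j => ?_) j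
            · intro h; exact absurd rfl h
            · intro _
              rw [Fin.cons_zero, Fin.cons_succ]
              exact ha2 j
          · refine Fin.cases ?_ (fun j => ?_) j
            · intro _
              rw [Fin.cons_zero, Fin.cons_succ]
              refine ⟨fun h => (ha2 i).1 h.symm, fun h => ?_⟩
              apply (ha2 i).2
              rw [h, (hτ a haR).2.1]
            · intro hij
              rw [Fin.cons_succ, Fin.cons_succ]
              exact hf2 i j fun h => hij (by rw [h])
      · rintro ⟨f, a⟩ _ ⟨g, b⟩ _ h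
        simp only at h
        have h0 := congrFun h 0
        rw [Fin.cons_zero, Fin.cons_zero] at h0
        have h1 : f = g := by
          funext i
          have h2 := congrFun h i.succ
          rwa [Fin.cons_succ, Fin.cons_succ] at h2
        rw [h0, h1]
    have hsum : (R.card : ℝ) / 2 * D.card ≤ ((D.sigma ext).card : ℝ) := by
      rw [Finset.card_sigma]
      push_cast
      calc (R.card : ℝ) / 2 * D.card = ∑ _f ∈ D, (R.card : ℝ) / 2 := by
            rw [Finset.sum_const, nsmul_eq_mul, mul_comm]
        _ ≤ ∑ f ∈ D, ((ext f).card : ℝ) := by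
            refine Finset.sum_le_sum fun f _ => ?_
            have h5 : (R.card : ℝ) ≤ 2 * (ext f).card := by exact_mod_cast hext f
            linarith
    calc ((R.card : ℝ) / 2) ^ (s + 1) = (R.card : ℝ) / 2 * ((R.card : ℝ) / 2) ^ s := by ring
      _ ≤ (R.card : ℝ) / 2 * D.card := by gcongr
      _ ≤ ((D.sigma ext).card : ℝ) := hsum
      _ ≤ (D'.card : ℝ) := by exact_mod_cast hcard

end Pool.Agent.Lib.MP_938ce2_ag_sub
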