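import Mathlib
import Pool.Agent.Lib.MP_938ce2_ag_sub.SD
import Pool.Agent.Lib.MP_938ce2_ag_sub.S4
import Pool.Agent.Lib.MP_938ce2_ag_sub.S5
import Pool.Agent.Lib.MP_938ce2_ag_sub.S6

/-!
Row S7 (180 lines): the share of the CM types with many representations of `V`. Uses S4, S5 (`card_orth`), S6 (`tuples_ge`).

RECIPE. `Z = ZZ G c x₀ Φ`. `R_Φ = {U ∈ Z | mul U V ∈ Z}` is stable under the involution `τ U = mul U V`, which has no fixed point
(`V ≠ univ`: `mul U V = U` implies `V = univ`), `R_Φ.card = rr Z V`. Count the pairs `(Φ, f)`, `Φ` a CM type with `rr Z V ≥ L`, `f` a tuple as in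
`tuples_ge` for `R_Φ`: at least `(number of Φ) * (L / 2) ^ s`. For given `f` let `B` be the set of the `2 s` elements `f i`, `mul (f i) V`
(all quadratic, odd, distinct: `mul (f i) V = mul (f j) V` iff `f i = f j`; `f i ≠ mul (f i) V`); the CM types `Φ` with all these in `ZZ Φ` number
at most `(7 √(2 s / g)) ^ (2 s) * 2 ^ g = (98 s / g) ^ s * 2 ^ g` (`card_orth`). The number of tuples `f` of quadratic sets is at most
`(2 g) ^ s` (`card_quad`, `card X = 2 g`). So `(number of Φ) ≤ (2 g) ^ s (98 s / g) ^ s 2 ^ g / (L / 2) ^ s = (392 s / L) ^ s * 2 ^ g`.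
(If `V` is not quadratic or not even the set is empty, nothing special to do.)
-/

set_option autoImplicit false
set_option linter.unusedSectionVars false

namespace Pool.Agent.Lib.MP_938ce2_ag_sub

open Finset Module
open Pool.Agent.Lib.MP_938ce2_ag_h67 (sg)
open Pool.Agent.Lib.MP_938ce2_ag_h60 (CMType)
open Pool.Agent.Lib.MP_938ce2_ag_u2 (Act)

private lemma mul_ne {X : Type} [Fintype X] [DecidableEq X] {V : Finset X}
    (hV : V ≠ Finset.univ) (U : Finset X) : mul U V ≠ U := by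
  intro h
  apply hV
  apply sg_inj
  intro x
  have h1 := sg_mul U V x
  rw [h] at h1
  have h2 : sg U x * sg U x = sg U x * sg U x * sg V x := by
    nth_rewrite 2 [h1]
    ring
  rw [sg_sq, one_mul] at h2
  rw [← h2]
  unfold sg
  rw [if_pos (Finset.mem_univ x)]

open Classical in
theorem rr_bound {G X : Type} [Group G] [Fintype G] [MulAction G X] [Fintype X] [DecidableEq X]
    [MulAction.IsPretransitive G X] {c : G} {g : ℕ} (hA : Act G X c g) (x₀ : X)
    (V : Finset X) (hV : V ≠ Finset.univ) (s L : ℕ) (hs : 1 ≤ s) (hL : 4 * s ≤ L) :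
    ((Finset.univ.filter fun Φ : Finset X =>
        CMType c Φ ∧ L ≤ rr (ZZ G c x₀ Φ) V).card : ℝ) ≤ (392 * s / L) ^ s * 2 ^ g := by
  have hs0 : (0 : ℝ) < s := by exact_mod_cast hs
  have hL0 : (0 : ℝ) < L := by
    have : 0 < L := by omega
    exact_mod_cast this
  have hg0 : (0 : ℝ) < g := by exact_mod_cast hA.pos
  -- the sets of representations
  have hR : ∀ Φ : Finset X, ∃ R : Finset (Finset X), R.card = rr (ZZ G c x₀ Φ) V ∧
      ∀ U, U ∈ R ↔ U ∈ ZZ G c x₀ Φ ∧ mul U V ∈ ZZ G c x₀ Φ := by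
    intro Φ
    exact ⟨_, rfl, fun U => by rw [Finset.mem_filter]⟩
  choose R hRc hRm using hR
  obtain ⟨A, hAdef⟩ : ∃ A : Finset (Finset X), A = Finset.univ.filter fun Φ : Finset X =>
    CMType c Φ ∧ L ≤ rr (ZZ G c x₀ Φ) V := ⟨_, rfl⟩
  rw [← hAdef]
  have hAm : ∀ Φ ∈ A, CMType c Φ ∧ L ≤ (R Φ).card := by
    intro Φ hΦ
    rw [hAdef, Finset.mem_filter] at hΦ
    exact ⟨hΦ.2.1, by rw [hRc]; exact hΦ.2.2⟩
  -- the tuples
  obtain ⟨T, hT⟩ : ∃ T : Finset X → Finset (Fin s → Finset X), ∀ Φ, T Φ =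
      Finset.univ.filter fun f : Fin s → Finset X =>
        (∀ i, f i ∈ R Φ) ∧ ∀ i j, i ≠ j → f i ≠ f j ∧ f i ≠ mul (f j) V := ⟨_, fun _ => rfl⟩
  have hTm : ∀ Φ f, f ∈ T Φ ↔ (∀ i, f i ∈ R Φ) ∧ ∀ i j, i ≠ j → f i ≠ f j ∧ f i ≠ mul (f j) V := by
    intro Φ f
    rw [hT, Finset.mem_filter]
    exact ⟨fun h => h.2, fun h => ⟨Finset.mem_univ _, h⟩⟩
  have hTc : ∀ Φ ∈ A, ((L : ℝ) / 2) ^ s ≤ ((T Φ).card : ℝ) := by
    intro Φ hΦ
    have h1 := (hAm Φ hΦ).2
    have h2 := tuples_ge (R Φ) (fun U => mul U V) (fun U hU => by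
      rw [hRm] at hU
      refine ⟨?_, mul_mul_self U V, mul_ne hV U⟩
      rw [hRm, mul_mul_self]
      exact ⟨hU.2, hU.1⟩) s (hL.trans h1)
    have h4 : (((R Φ).card : ℝ) / 2) ^ s ≤ ((T Φ).card : ℝ) := by
      rw [hT]
      convert h2
    refine le_trans ?_ h4
    have h3 : (L : ℝ) ≤ ((R Φ).card : ℝ) := by exact_mod_cast h1
    gcongr
  -- the quadratic sets
  obtain ⟨Qs, hQs⟩ : ∃ Qs : Finset (Finset X), Qs =
    Finset.univ.filter fun U : Finset X => Quad G x₀ U := ⟨_, rfl⟩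
  have hQm : ∀ U, U ∈ Qs ↔ Quad G x₀ U := by
    intro U
    rw [hQs, Finset.mem_filter]
    exact ⟨fun h => h.2, fun h => ⟨Finset.mem_univ _, h⟩⟩
  have hQc : Qs.card ≤ 2 * g := by
    rw [← hA.card]
    exact card_quad Qs (fun U hU => (hQm U).1 hU)
  obtain ⟨Fs, hFs⟩ : ∃ Fs : Finset (Fin s → Finset X), Fs = Fintype.piFinset fun _ => Qs :=
    ⟨_, rfl⟩
  have hFc : (Fs.card : ℝ) ≤ (2 * g) ^ s := by
    rw [hFs, Fintype.card_piFinset, Finset.prod_const, Finset.card_univ, Fintype.card_fin]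
    push_cast
    have : (Qs.card : ℝ) ≤ 2 * g := by exact_mod_cast hQc
    gcongr
  have hTF : ∀ Φ, ∀ f ∈ T Φ, f ∈ Fs := by
    intro Φ f hf
    rw [hFs, Fintype.mem_piFinset]
    intro i
    rw [hQm]
    have h1 := ((hTm Φ f).1 hf).1 i
    rw [hRm, mem_ZZ] at h1
    exact h1.1.1
  -- the bound for one tuple
  obtain ⟨K, hK⟩ : ∃ K : ℝ, K = (98 * s / g) ^ s * 2 ^ g := ⟨_, rfl⟩
  have hK0 : 0 ≤ K := by
    rw [hK]
    positivity
  have hone : ∀ f : Fin s → Finset X, ((A.filter fun Φ => f ∈ T Φ).card : ℝ) ≤ K := by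
    intro f
    by_cases hne : (A.filter fun Φ => f ∈ T Φ).Nonempty
    · obtain ⟨Φ₀, hΦ₀⟩ := hne
      rw [Finset.mem_filter] at hΦ₀
      obtain ⟨h1, h2⟩ := (hTm Φ₀ f).1 hΦ₀.2
      obtain ⟨B, hB⟩ : ∃ B : Finset (Finset X),
        B = Finset.univ.image f ∪ Finset.univ.image (fun i => mul (f i) V) := ⟨_, rfl⟩
      have hinj : Function.Injective f := by
        intro i j hij
        by_contra hne
        exact (h2 i j hne).1 hij
      have hinj2 : Function.Injective fun i => mul (f i) V := by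
        intro i j hij
        apply hinj
        have h3 : mul (mul (f i) V) V = mul (mul (f j) V) V := by
          change mul (f i) V = mul (f j) V at hij
          rw [hij]
        rwa [mul_mul_self, mul_mul_self] at h3
      have hdis : Disjoint (Finset.univ.image f) (Finset.univ.image fun i => mul (f i) V) := by
        rw [Finset.disjoint_left]
        intro U hU hU2
        obtain ⟨i, -, rfl⟩ := Finset.mem_image.1 hU
        obtain ⟨j, -, hj⟩ := Finset.mem_image.1 hU2
        by_cases hij : i = j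
        · subst hij
          exact mul_ne hV _ hj
        · exact (h2 i j hij).2 hj.symm
      have hBc : B.card = 2 * s := by
        rw [hB, Finset.card_union_of_disjoint hdis, Finset.card_image_of_injective _ hinj,
          Finset.card_image_of_injective _ hinj2, Finset.card_univ, Fintype.card_fin]
        ring
      have hBq : ∀ U ∈ B, Quad G x₀ U ∧ CMType c U := by
        intro U hU
        rw [hB, Finset.mem_union] at hU
        rcases hU with hU | hU
        · obtain ⟨i, -, rfl⟩ := Finset.mem_image.1 hU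
          have h3 := h1 i
          rw [hRm, mem_ZZ] at h3
          exact ⟨h3.1.1, h3.1.2.1⟩
        · obtain ⟨i, -, rfl⟩ := Finset.mem_image.1 hU
          have h3 := h1 i
          rw [hRm, mem_ZZ, mem_ZZ] at h3
          exact ⟨h3.2.1, h3.2.2.1⟩
      have h4 := card_orth hA x₀ B hBq (by omega)
      rw [hBc] at h4
      refine le_trans ?_ (h4.trans (le_of_eq ?_))
      · refine Nat.cast_le.2 (Finset.card_le_card ?_)
        intro Φ hΦ
        rw [Finset.mem_filter] at hΦ ⊢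
        obtain ⟨h5, h6⟩ := hΦ
        refine ⟨Finset.mem_univ _, (hAm Φ h5).1, ?_⟩
        intro U hU
        have h7 := ((hTm Φ f).1 h6).1
        rw [hB, Finset.mem_union] at hU
        rcases hU with hU | hU
        · obtain ⟨i, -, rfl⟩ := Finset.mem_image.1 hU
          have h3 := h7 i
          rw [hRm, mem_ZZ] at h3
          exact h3.1.2.2
        · obtain ⟨i, -, rfl⟩ := Finset.mem_image.1 hU
          have h3 := h7 i
          rw [hRm, mem_ZZ, mem_ZZ] at h3
          exact h3.2.2.2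
      · rw [hK, pow_mul, mul_pow, Real.sq_sqrt (by positivity)]
        push_cast
        congr 2
        ring
    · rw [Finset.not_nonempty_iff_eq_empty] at hne
      rw [hne, Finset.card_empty, Nat.cast_zero]
      exact hK0
  -- double counting
  have hmain : (A.card : ℝ) * ((L : ℝ) / 2) ^ s ≤ (2 * g) ^ s * K := by
    calc (A.card : ℝ) * ((L : ℝ) / 2) ^ s = ∑ Φ ∈ A, ((L : ℝ) / 2) ^ s := by
          rw [Finset.sum_const, nsmul_eq_mul]
      _ ≤ ∑ Φ ∈ A, ((T Φ).card : ℝ) := Finset.sum_le_sum hTc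
      _ = ∑ Φ ∈ A, ∑ f ∈ Fs, (if f ∈ T Φ then (1 : ℝ) else 0) := by
          refine Finset.sum_congr rfl fun Φ _ => ?_
          rw [Finset.sum_ite_mem, Finset.inter_eq_right.2 (hTF Φ), Finset.sum_const,
            nsmul_eq_mul, mul_one]
      _ = ∑ f ∈ Fs, ∑ Φ ∈ A, (if f ∈ T Φ then (1 : ℝ) else 0) := Finset.sum_comm
      _ ≤ ∑ f ∈ Fs, K := by
          refine Finset.sum_le_sum fun f _ => ?_
          rw [← Finset.sum_filter, Finset.sum_const, nsmul_eq_mul, mul_one]
          exact hone f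
      _ = Fs.card * K := by rw [Finset.sum_const, nsmul_eq_mul]
      _ ≤ (2 * g) ^ s * K := mul_le_mul_of_nonneg_right hFc hK0
  have h5 : (2 * (g : ℝ)) ^ s * K = ((392 * s / L) ^ s * 2 ^ g) * ((L : ℝ) / 2) ^ s := by
    have e1 : 2 * (g : ℝ) * (98 * s / g) = (392 * s / L) * ((L : ℝ) / 2) := by
      field_simp
      ring
    calc (2 * (g : ℝ)) ^ s * K = (2 * (g : ℝ) * (98 * s / g)) ^ s * 2 ^ g := by
          rw [hK, mul_pow (2 * (g : ℝ))]
          ring
      _ = ((392 * s / L) * ((L : ℝ) / 2)) ^ s * 2 ^ g := by rw [e1]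
      _ = ((392 * s / L) ^ s * 2 ^ g) * ((L : ℝ) / 2) ^ s := by
          rw [mul_pow (392 * (s : ℝ) / L)]
          ring
  rw [h5] at hmain
  exact le_of_mul_le_mul_right hmain (by positivity)

end Pool.Agent.Lib.MP_938ce2_ag_sub
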