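import Mathlib
import Pool.Agent.Lib.MP_938ce2_ag_sub.SD
import Pool.Agent.Lib.MP_938ce2_ag_sub.S4
import Pool.Agent.Lib.MP_938ce2_ag_sub.S7

/-!
Row S8 (120 lines): for most CM types no set has many representations. Uses S4, S7 (`rr_bound`).

RECIPE. If `rr (ZZ Φ) V > 0` then `V = mul U (mul U V)` with `U`, `mul U V` quadratic, so `V` is quadratic (`quad_mul`); there are at most
`card X = 2 g` quadratic sets (`card_quad`). Let `s = ⌈2 log g⌉₊` (`g ≥ 2`, so `1 ≤ s ≤ 2 log g + 1 ≤ 4 log g`) and `L = 1200 * s ≤ 4800 log g`: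
`rr > 4800 log g` implies `rr ≥ L`. Union bound over the quadratic `V ≠ univ`: `2 g * (392 / 1200) ^ s * 2 ^ g ≤ 2 g exp (-s) 2 ^ g
≤ 2 g g ^ (-2) 2 ^ g` (`392/1200 ≤ exp (-1)`: `exp 1 < 2.7182818286`).
-/

set_option autoImplicit false
set_option linter.unusedSectionVars false

namespace Pool.Agent.Lib.MP_938ce2_ag_sub

open Finset Module
open Pool.Agent.Lib.MP_938ce2_ag_h67 (sg)
open Pool.Agent.Lib.MP_938ce2_ag_h60 (CMType)
open Pool.Agent.Lib.MP_938ce2_ag_u2 (Act)

open Classical in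
theorem rr_all {G X : Type} [Group G] [Fintype G] [MulAction G X] [Fintype X] [DecidableEq X]
    [MulAction.IsPretransitive G X] {c : G} {g : ℕ} (hA : Act G X c g) (x₀ : X) (hg : 2 ≤ g) :
    ((Finset.univ.filter fun Φ : Finset X => CMType c Φ ∧
        ∃ V : Finset X, V ≠ Finset.univ ∧ 4800 * Real.log g < rr (ZZ G c x₀ Φ) V).card : ℝ)
      ≤ 2 / g * 2 ^ g := by
  have hg0 : (0 : ℝ) < g := by
    have h1 : 0 < g := by omega
    exact_mod_cast h1
  have hlog : (1 / 2 : ℝ) ≤ Real.log g := by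
    have h1 : Real.log 2 ≤ Real.log g := Real.log_le_log (by norm_num) (by exact_mod_cast hg)
    have h2 := Real.log_two_gt_d9
    linarith
  set s : ℕ := ⌈2 * Real.log g⌉₊ with hs
  have hs1 : 1 ≤ s := by
    rw [hs, Nat.one_le_ceil_iff]
    linarith
  have hs2 : 2 * Real.log g ≤ s := Nat.le_ceil _
  have hs3 : (s : ℝ) < 2 * Real.log g + 1 := Nat.ceil_lt_add_one (by linarith)
  have hsR : (0 : ℝ) < s := by exact_mod_cast hs1
  set B : Finset (Finset X) := Finset.univ.filter fun V => Quad G x₀ V ∧ V ≠ Finset.univ with hB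
  have hBc : (B.card : ℝ) ≤ 2 * g := by
    have h1 : B.card ≤ Fintype.card X := card_quad (G := G) (x₀ := x₀) B fun U hU =>
      (Finset.mem_filter.mp hU).2.1
    rw [hA.card] at h1
    exact_mod_cast h1
  have hsub : (Finset.univ.filter fun Φ : Finset X => CMType c Φ ∧
        ∃ V : Finset X, V ≠ Finset.univ ∧ 4800 * Real.log g < rr (ZZ G c x₀ Φ) V)
      ⊆ B.biUnion fun V => Finset.univ.filter fun Φ : Finset X =>
        CMType c Φ ∧ 1200 * s ≤ rr (ZZ G c x₀ Φ) V := by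
    intro Φ hΦ
    obtain ⟨hcm, V, hV1, hV⟩ := (Finset.mem_filter.mp hΦ).2
    rw [Finset.mem_biUnion]
    refine ⟨V, ?_, ?_⟩
    · rw [hB, Finset.mem_filter]
      refine ⟨Finset.mem_univ _, ?_, hV1⟩
      have h1 : 0 < rr (ZZ G c x₀ Φ) V := by
        have h2 : (0 : ℝ) < rr (ZZ G c x₀ Φ) V := by linarith
        exact_mod_cast h2
      unfold rr at h1
      obtain ⟨U, hU⟩ := Finset.card_pos.mp h1
      rw [Finset.mem_filter] at hU
      have h3 := quad_mul ((mem_ZZ G c x₀ Φ _).mp hU.2).1 ((mem_ZZ G c x₀ Φ _).mp hU.1).1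
      rw [mul_comm' U V, mul_mul_self] at h3
      exact h3
    · rw [Finset.mem_filter]
      refine ⟨Finset.mem_univ _, hcm, ?_⟩
      have h1 : ((1200 * s : ℕ) : ℝ) ≤ rr (ZZ G c x₀ Φ) V := by
        push_cast
        linarith
      exact_mod_cast h1
  have hone : ∀ V ∈ B, ((Finset.univ.filter fun Φ : Finset X =>
        CMType c Φ ∧ 1200 * s ≤ rr (ZZ G c x₀ Φ) V).card : ℝ) ≤ Real.exp (-s) * 2 ^ g := by
    intro V hV
    have h1 := rr_bound hA x₀ V (Finset.mem_filter.mp hV).2.2 s (1200 * s) hs1 (by omega)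
    refine h1.trans ?_
    apply mul_le_mul_of_nonneg_right _ (by positivity)
    have h2 : (392 * (s : ℝ) / ((1200 * s : ℕ) : ℝ)) = 392 / 1200 := by
      push_cast
      field_simp
    rw [h2]
    have h3 : (392 / 1200 : ℝ) ≤ Real.exp (-1) := by
      rw [Real.exp_neg, ← one_div, le_div_iff₀ (Real.exp_pos 1)]
      have h4 := Real.exp_one_lt_d9
      nlinarith
    calc (392 / 1200 : ℝ) ^ s ≤ Real.exp (-1) ^ s := pow_le_pow_left₀ (by norm_num) h3 s
      _ = Real.exp (-s) := by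
        rw [← Real.exp_nat_mul]
        congr 1
        ring
  have hexp : Real.exp (-(s : ℝ)) ≤ 1 / (g : ℝ) ^ 2 := by
    calc Real.exp (-(s : ℝ)) ≤ Real.exp (-(2 * Real.log g)) := by
          apply Real.exp_le_exp.mpr
          linarith
      _ = 1 / (g : ℝ) ^ 2 := by
        rw [Real.exp_neg, ← one_div]
        congr 1
        rw [mul_comm, Real.exp_mul, Real.exp_log hg0]
        norm_num
  calc ((Finset.univ.filter fun Φ : Finset X => CMType c Φ ∧
        ∃ V : Finset X, V ≠ Finset.univ ∧ 4800 * Real.log g < rr (ZZ G c x₀ Φ) V).card : ℝ)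
      ≤ ((B.biUnion fun V => Finset.univ.filter fun Φ : Finset X =>
        CMType c Φ ∧ 1200 * s ≤ rr (ZZ G c x₀ Φ) V).card : ℝ) := by
        exact_mod_cast Finset.card_le_card hsub
    _ ≤ ∑ V ∈ B, ((Finset.univ.filter fun Φ : Finset X =>
        CMType c Φ ∧ 1200 * s ≤ rr (ZZ G c x₀ Φ) V).card : ℝ) := by
        exact_mod_cast Finset.card_biUnion_le
    _ ≤ ∑ _V ∈ B, Real.exp (-s) * 2 ^ g := Finset.sum_le_sum hone
    _ = B.card * (Real.exp (-s) * 2 ^ g) := by rw [Finset.sum_const, nsmul_eq_mul]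
    _ ≤ 2 * g * (1 / (g : ℝ) ^ 2 * 2 ^ g) := by
        apply mul_le_mul hBc _ (by positivity) (by positivity)
        exact mul_le_mul_of_nonneg_right hexp (by positivity)
    _ = 2 / g * 2 ^ g := by
        field_simp

end Pool.Agent.Lib.MP_938ce2_ag_sub
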