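import Mathlib
import Pool.Agent.Lib.MP_938ce2_ag_sub.SD
import Pool.Agent.Lib.MP_938ce2_ag_sub.S8
import Pool.Agent.Lib.MP_938ce2_ag_sub.S9
import Pool.Agent.Lib.MP_938ce2_ag_sub.S10
import Pool.Agent.Lib.MP_938ce2_ag_h65.Main
import Pool.Agent.Lib.MP_938ce2_ag_u3.OddNum
import Pool.Agent.Lib.MP_938ce2_ag_u2.Deg

/-!
Row S11: assembly for `G`-sets. `I2`, `I3` are the bounds for the modules of dimension `2` and `≥ 3` (version 3 of the
criterion; they are hypotheses here).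
-/

set_option autoImplicit false
set_option linter.unusedSectionVars false

namespace Pool.Agent.Lib.MP_938ce2_ag_sub

open Finset Module MonoidAlgebra
open Pool.Agent.Lib.MP_938ce2_ag_h67 (sg VV ev mkV)
open Pool.Agent.Lib.MP_938ce2_ag_h60 (CMType)
open Pool.Agent.Lib.MP_938ce2_ag_h65 (GeneratedUpTo)
open Pool.Agent.Lib.MP_938ce2_ag_u2 (Act OddM badC mem_badC dM dE dH)

/-- the bound for the simple odd modules of dimension two -/
def I2 : Prop := ∃ C : ℝ, 0 < C ∧ ∀ (G X : Type) [Group G] [Fintype G] [MulAction G X] [Fintype X]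
  [DecidableEq X] [MulAction.IsPretransitive G X] (c : G) (g : ℕ), Act G X c g → 2 ≤ g →
    ∀ M : Submodule (MonoidAlgebra ℚ G) (VV ℚ G X), IsSimpleModule (MonoidAlgebra ℚ G) M →
      OddM c M → dM M = 2 → ((badC c M).card : ℝ) / 2 ^ g ≤ C * (Real.log g / g)

/-- the bound for the simple odd modules of dimension at least three -/
def I3 : Prop := ∀ ε : ℝ, 0 < ε → ∃ g₀ : ℕ, ∀ (G X : Type) [Group G] [Fintype G] [MulAction G X]
  [Fintype X] [DecidableEq X] [MulAction.IsPretransitive G X] (c : G) (g : ℕ), Act G X c g →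
    g₀ ≤ g → ∀ (ι : Type) [Fintype ι] (S : ι → Submodule (MonoidAlgebra ℚ G) (VV ℚ G X)),
      (∀ i, IsSimpleModule (MonoidAlgebra ℚ G) (S i)) → (∀ i, OddM c (S i)) →
      (∀ i j, Nonempty (S i ≃ₗ[MonoidAlgebra ℚ G] S j) → i = j) → (∀ i, 3 ≤ dM (S i)) →
      ∑ i, ((badC c (S i)).card : ℝ) / 2 ^ g ≤ ε

/-- a CM type outside the three exceptional sets has no exceptional class of small codimension -/
private theorem gen_of_good {G X : Type} [Group G] [Fintype G] [MulAction G X] [Fintype X]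
    [DecidableEq X] [MulAction.IsPretransitive G X] {c : G} {g : ℕ} (hA : Act G X c g)
    (hg2 : 2 ≤ g) (x₀ : X) {Φ : Finset X} (hΦ : CMType c Φ) (C' a : ℝ) (hC' : 0 < C') (N : ℕ)
    (hfin : finrank ℚ (Rest G c x₀ Φ) ≤ 4 * N) (hN : (N : ℝ) ≤ a * Real.log g)
    (hr : ∀ V : Finset X, V ≠ Finset.univ → (rr (ZZ G c x₀ Φ) V : ℝ) ≤ 4800 * Real.log g)
    (hC1 : 16 * (1 / Real.log 2 + 4800) ≤ C') (hC2 : 16 * a ≤ C') (J : ℕ)
    (hJ : (J : ℝ) ≤ 1 / (4 * C') * g / Real.log g) : GeneratedUpTo G J Φ := by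
  by_contra hbad
  obtain ⟨τ, hne, hsum⟩ := Pool.Agent.Lib.MP_938ce2_ag_h65.exists_vec_of_not_generated
    hA.comm hA.sq hA.free hΦ hbad
  have hlog2 : 0 < Real.log 2 := Real.log_pos (by norm_num)
  have hg2' : (2 : ℝ) ≤ g := by exact_mod_cast hg2
  have hlg : Real.log 2 ≤ Real.log g := Real.log_le_log (by norm_num) hg2'
  have hlg0 : 0 < Real.log g := by linarith
  have hodd : ∀ x, Pool.Agent.Lib.MP_938ce2_ag_h65.vec c τ (c • x)
      = - Pool.Agent.Lib.MP_938ce2_ag_h65.vec c τ x := fun x =>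
    Pool.Agent.Lib.MP_938ce2_ag_h65.vec_odd hA.sq τ x
  have hf : ∀ σ : G, ∑ x, sg Φ x * Pool.Agent.Lib.MP_938ce2_ag_h65.vec c τ (σ • x) = 0 := by
    intro σ
    rw [Pool.Agent.Lib.MP_938ce2_ag_u2.DegAux.sum_sg_odd hA hΦ
      (fun x => Pool.Agent.Lib.MP_938ce2_ag_h65.vec c τ (σ • x)), hsum, mul_zero]
    intro x
    rw [smul_smul, ← hA.comm, ← smul_smul, hodd]
  have hfin' : (finrank ℚ (Rest G c x₀ Φ) : ℝ) ≤ 4 * (N : ℝ) := by exact_mod_cast hfin
  have h1 := supp_bound hA x₀ Φ hΦ (4800 * Real.log g) (4 * (N : ℝ)) (by positivity) hr hfin'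
    (Pool.Agent.Lib.MP_938ce2_ag_h65.vec c τ) hodd hf hne
  have h2 := Pool.Agent.Lib.MP_938ce2_ag_h65.card_supp_vec c τ Finset.univ
  have h3 : max (16 * (1 + 4800 * Real.log g)) (4 * (4 * (N : ℝ))) ≤ C' * Real.log g := by
    refine max_le ?_ ?_
    · have e1 : 1 ≤ 1 / Real.log 2 * Real.log g := by
        rw [one_div_mul_eq_div]
        exact (one_le_div hlog2).2 hlg
      calc 16 * (1 + 4800 * Real.log g)
          ≤ 16 * (1 / Real.log 2 * Real.log g + 4800 * Real.log g) := by linarith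
        _ = 16 * (1 / Real.log 2 + 4800) * Real.log g := by ring
        _ ≤ C' * Real.log g := mul_le_mul_of_nonneg_right hC1 hlg0.le
    · calc 4 * (4 * (N : ℝ)) ≤ 4 * (4 * (a * Real.log g)) := by linarith
        _ = 16 * a * Real.log g := by ring
        _ ≤ C' * Real.log g := mul_le_mul_of_nonneg_right hC2 hlg0.le
  have h4 : ((Finset.univ.filter fun x =>
      Pool.Agent.Lib.MP_938ce2_ag_h65.vec c τ x ≠ 0).card : ℝ) ≤ 4 * J := by
    have e1 : (Finset.univ.filter fun x =>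
      Pool.Agent.Lib.MP_938ce2_ag_h65.vec c τ x ≠ 0).card ≤ 4 * J := by omega
    exact_mod_cast e1
  have h5 : (2 * g : ℝ) ≤ C' * Real.log g * (4 * J) :=
    h1.trans (mul_le_mul h3 h4 (Nat.cast_nonneg _) (by positivity))
  have h6 : C' * Real.log g * (4 * (J : ℝ)) ≤ g := by
    have e1 : C' * Real.log g * (4 * (J : ℝ))
        ≤ C' * Real.log g * (4 * (1 / (4 * C') * g / Real.log g)) :=
      mul_le_mul_of_nonneg_left (by linarith) (by positivity)
    have e2 : C' * Real.log g * (4 * (1 / (4 * C') * g / Real.log g)) = g := by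
      field_simp
    rw [e2] at e1
    exact e1
  linarith

open Classical in
/-- the sum of the numbers of the modules of dimension two orthogonal to the CM types -/
private theorem sum_N {G X : Type} [Group G] [Fintype G] [MulAction G X] [Fintype X]
    [DecidableEq X] {c : G} {g : ℕ} (hg : 1 ≤ g) (b : ℝ) (hb : 0 ≤ b) {ι : Type} [Fintype ι]
    (S : ι → Submodule (MonoidAlgebra ℚ G) (VV ℚ G X)) (k : ι → ℕ) (hk : ∀ i, 1 ≤ k i)
    (hsum : ∑ i, k i * dM (S i) ≤ g)
    (h2 : ∀ i, dM (S i) = 2 → ((badC c (S i)).card : ℝ) ≤ b / g) :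
    ∑ Φ : Finset X, ((Finset.univ.filter fun i => dM (S i) = 2 ∧ Φ ∈ badC c (S i)).card : ℝ)
      ≤ b := by
  have hg0 : (0 : ℝ) < g := by exact_mod_cast hg
  have e1 : ∀ Φ : Finset X,
      ((Finset.univ.filter fun i => dM (S i) = 2 ∧ Φ ∈ badC c (S i)).card : ℝ)
        = ∑ i, if dM (S i) = 2 ∧ Φ ∈ badC c (S i) then (1 : ℝ) else 0 := by
    intro Φ
    rw [Finset.card_filter]
    push_cast
    rfl
  rw [Finset.sum_congr rfl fun Φ _ => e1 Φ, Finset.sum_comm]
  have e2 : ∀ i, ∑ Φ : Finset X, (if dM (S i) = 2 ∧ Φ ∈ badC c (S i) then (1 : ℝ) else 0)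
      ≤ ((k i * dM (S i) : ℕ) : ℝ) * (b / g) := by
    intro i
    by_cases h : dM (S i) = 2
    · have e3 : ∑ Φ : Finset X, (if dM (S i) = 2 ∧ Φ ∈ badC c (S i) then (1 : ℝ) else 0)
          = ((badC c (S i)).card : ℝ) := by
        simp only [h, true_and]
        rw [Finset.sum_boole, Finset.filter_mem_eq_inter, Finset.univ_inter]
      rw [e3]
      have e4 : (1 : ℝ) ≤ ((k i * dM (S i) : ℕ) : ℝ) := by
        have := hk i
        have e5 : 1 ≤ k i * dM (S i) := by
          rw [h]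
          omega
        exact_mod_cast e5
      calc ((badC c (S i)).card : ℝ) ≤ b / g := h2 i h
        _ = 1 * (b / g) := (one_mul _).symm
        _ ≤ ((k i * dM (S i) : ℕ) : ℝ) * (b / g) :=
            mul_le_mul_of_nonneg_right e4 (by positivity)
    · have e3 : ∑ Φ : Finset X, (if dM (S i) = 2 ∧ Φ ∈ badC c (S i) then (1 : ℝ) else 0) = 0 :=
        Finset.sum_eq_zero fun Φ _ => if_neg fun hh => h hh.1
      rw [e3]
      positivity
  refine (Finset.sum_le_sum fun i _ => e2 i).trans ?_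
  rw [← Finset.sum_mul, ← Nat.cast_sum]
  have e6 : ((∑ i, k i * dM (S i) : ℕ) : ℝ) ≤ g := by exact_mod_cast hsum
  calc ((∑ i, k i * dM (S i) : ℕ) : ℝ) * (b / g) ≤ g * (b / g) :=
        mul_le_mul_of_nonneg_right e6 (by positivity)
    _ = b := by field_simp

open Classical in
/-- Markov's inequality -/
private theorem markov {T : Type} [Fintype T] (N : T → ℕ) (a b : ℝ) (ha : 0 < a)
    (h : ∑ t, (N t : ℝ) ≤ b) : ((Finset.univ.filter fun t => a < (N t : ℝ)).card : ℝ) ≤ b / a := by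
  rw [le_div_iff₀ ha]
  calc ((Finset.univ.filter fun t => a < (N t : ℝ)).card : ℝ) * a
      = ∑ t ∈ Finset.univ.filter fun t => a < (N t : ℝ), a := by
        rw [Finset.sum_const, nsmul_eq_mul]
    _ ≤ ∑ t ∈ Finset.univ.filter fun t => a < (N t : ℝ), (N t : ℝ) :=
        Finset.sum_le_sum fun t ht => ((Finset.mem_filter.mp ht).2).le
    _ ≤ ∑ t, (N t : ℝ) :=
        Finset.sum_le_sum_of_subset_of_nonneg (Finset.filter_subset _ _)
          fun t _ _ => Nat.cast_nonneg _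
    _ ≤ b := h

theorem main_sub (h2 : I2) (h3 : I3) : ∀ η : ℝ, 0 < η → ∃ κ : ℝ, 0 < κ ∧ ∃ g₀ : ℕ,
    ∀ (G X : Type) [Group G] [Fintype G] [MulAction G X] [Fintype X] [DecidableEq X]
      [MulAction.IsPretransitive G X] (c : G) (g : ℕ), Act G X c g → g₀ ≤ g → ∀ J : ℕ,
      (J : ℝ) ≤ κ * g / Real.log g →
      (Nat.card {Φ : Finset X // CMType c Φ ∧ ¬ GeneratedUpTo G J Φ} : ℝ) ≤ η * 2 ^ g := by
  intro η hη
  obtain ⟨C, hC, hI2⟩ := h2
  obtain ⟨g₁, hI3⟩ := h3 (η / 4) (by positivity)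
  have hlog2 : 0 < Real.log 2 := Real.log_pos (by norm_num)
  obtain ⟨C', hC1, hC2⟩ : ∃ C' : ℝ, 16 * (1 / Real.log 2 + 4800) ≤ C' ∧
      16 * (4 * C / η) ≤ C' := ⟨max (16 * (1 / Real.log 2 + 4800)) (16 * (4 * C / η)),
    le_max_left _ _, le_max_right _ _⟩
  have hC'0 : 0 < C' := by
    have e1 : 0 < 16 * (1 / Real.log 2 + 4800) := by positivity
    linarith
  refine ⟨1 / (4 * C'), by positivity, max (max 2 g₁) ⌈8 / η⌉₊, ?_⟩
  intro G X _ _ _ _ _ _ c g hA hg J hJ
  classical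
  have hg2 : 2 ≤ g := (le_max_left _ _).trans ((le_max_left _ _).trans hg)
  have hg1 : g₁ ≤ g := (le_max_right _ _).trans ((le_max_left _ _).trans hg)
  have hg8 : 8 / η ≤ g := Nat.ceil_le.mp ((le_max_right _ _).trans hg)
  have hg2' : (2 : ℝ) ≤ g := by exact_mod_cast hg2
  have hg0 : (0 : ℝ) < g := by linarith
  have hlg0 : 0 < Real.log g := Real.log_pos (by linarith)
  have hX : Nonempty X := by
    rw [← Fintype.card_pos_iff, hA.card]
    omega
  obtain ⟨x₀⟩ := hX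
  obtain ⟨ι, hι, S, k, hS, hodd, hall, hinj, hk, -, hsum⟩ :=
    Pool.Agent.Lib.MP_938ce2_ag_u3.odd_numbers hA
  have hp : (0 : ℝ) < 2 ^ g := by positivity
  -- the first exceptional set
  have hE1 : ((Finset.univ.filter fun Φ : Finset X => 4 * C / η * Real.log g
      < ((Finset.univ.filter fun i => dM (S i) = 2 ∧ Φ ∈ badC c (S i)).card : ℝ)).card : ℝ)
      ≤ η / 4 * 2 ^ g := by
    have e1 := sum_N (c := c) (g := g) (by omega) (C * Real.log g * 2 ^ g) (by positivity) S k hk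
      hsum (fun i hi => by
        have e2 := hI2 G X c g hA hg2 (S i) (hS i) (hodd i) hi
        rw [div_le_iff₀ hp] at e2
        refine e2.trans (le_of_eq ?_)
        ring)
    have e3 := markov (fun Φ : Finset X => (Finset.univ.filter fun i =>
      dM (S i) = 2 ∧ Φ ∈ badC c (S i)).card) (4 * C / η * Real.log g) (C * Real.log g * 2 ^ g)
      (by positivity) e1
    refine e3.trans (le_of_eq ?_)
    field_simp
  -- the second exceptional set
  have hE2 : ((Finset.univ.filter fun Φ : Finset X =>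
      ∃ i, 3 ≤ dM (S i) ∧ Φ ∈ badC c (S i)).card : ℝ) ≤ η / 4 * 2 ^ g := by
    have e1 := hI3 G X c g hA hg1 {i : ι // 3 ≤ dM (S i)} (fun i => S i.1) (fun i => hS i.1)
      (fun i => hodd i.1) (fun i j hij => Subtype.ext (hinj i.1 j.1 hij)) (fun i => i.2)
    rw [← Finset.sum_div, div_le_iff₀ hp] at e1
    refine le_trans ?_ e1
    have e2 : (Finset.univ.filter fun Φ : Finset X => ∃ i, 3 ≤ dM (S i) ∧ Φ ∈ badC c (S i))
        ⊆ (Finset.univ : Finset {i : ι // 3 ≤ dM (S i)}).biUnion fun i => badC c (S i.1) := by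
      intro Φ hΦ
      rw [Finset.mem_filter] at hΦ
      obtain ⟨-, i, hi, hb⟩ := hΦ
      rw [Finset.mem_biUnion]
      exact ⟨⟨i, hi⟩, Finset.mem_univ _, hb⟩
    exact_mod_cast (Finset.card_le_card e2).trans Finset.card_biUnion_le
  -- the third exceptional set
  have hE3 : ((Finset.univ.filter fun Φ : Finset X => CMType c Φ ∧
        ∃ V : Finset X, V ≠ Finset.univ ∧ 4800 * Real.log g < rr (ZZ G c x₀ Φ) V).card : ℝ)
      ≤ η / 4 * 2 ^ g := by
    refine (rr_all hA x₀ hg2).trans (mul_le_mul_of_nonneg_right ?_ hp.le)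
    rw [div_le_iff₀ hη] at hg8
    rw [div_le_iff₀ hg0]
    linarith
  -- all others are good
  have hsub : (Finset.univ.filter fun Φ : Finset X => CMType c Φ ∧ ¬ GeneratedUpTo G J Φ)
      ⊆ ((Finset.univ.filter fun Φ : Finset X => 4 * C / η * Real.log g
      < ((Finset.univ.filter fun i => dM (S i) = 2 ∧ Φ ∈ badC c (S i)).card : ℝ))
      ∪ (Finset.univ.filter fun Φ : Finset X => ∃ i, 3 ≤ dM (S i) ∧ Φ ∈ badC c (S i)))
      ∪ (Finset.univ.filter fun Φ : Finset X => CMType c Φ ∧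
        ∃ V : Finset X, V ≠ Finset.univ ∧ 4800 * Real.log g < rr (ZZ G c x₀ Φ) V) := by
    intro Φ hΦ
    rw [Finset.mem_filter] at hΦ
    obtain ⟨-, hcm, hbad⟩ := hΦ
    by_contra hcon
    rw [Finset.mem_union, Finset.mem_union, Finset.mem_filter, Finset.mem_filter,
      Finset.mem_filter] at hcon
    push Not at hcon
    obtain ⟨⟨c1, c2⟩, c3⟩ := hcon
    apply hbad
    refine gen_of_good hA hg2 x₀ hcm C' (4 * C / η) hC'0 _
      (rest_dim hA x₀ Φ hcm ι S hall fun i hi => c2 (Finset.mem_univ _) i hi) ?_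
      (fun V hV => c3 (Finset.mem_univ _) hcm V hV) hC1 hC2 J hJ
    convert c1 (Finset.mem_univ _)
  have hcard : Nat.card {Φ : Finset X // CMType c Φ ∧ ¬ GeneratedUpTo G J Φ}
      = (Finset.univ.filter fun Φ : Finset X => CMType c Φ ∧ ¬ GeneratedUpTo G J Φ).card := by
    rw [Nat.card_eq_fintype_card, Fintype.card_subtype]
  rw [hcard]
  have hle : ((Finset.univ.filter fun Φ : Finset X => CMType c Φ ∧
      ¬ GeneratedUpTo G J Φ).card : ℝ) ≤ η / 4 * 2 ^ g + η / 4 * 2 ^ g + η / 4 * 2 ^ g := by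
    refine le_trans ?_ (add_le_add (add_le_add hE1 hE2) hE3)
    exact_mod_cast (Finset.card_le_card hsub).trans ((Finset.card_union_le _ _).trans
      (Nat.add_le_add_right (Finset.card_union_le _ _) _))
  have hlast : η / 4 * 2 ^ g + η / 4 * 2 ^ g + η / 4 * 2 ^ g ≤ η * 2 ^ g := by
    have e1 : 0 ≤ η * 2 ^ g := by positivity
    linarith
  exact hle.trans hlast

end Pool.Agent.Lib.MP_938ce2_ag_sub
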