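import Mathlib
import Pool.Agent.Lib.MP_938ce2_ag_sub.S11
import Pool.Agent.Lib.MP_938ce2_ag_u5.Final5

/-!
Row S12 (80 lines): the theorem for CM fields. Uses S11.

RECIPE. As `u5.upper_field` (u5/Final5.lean): `u5.even_finrank E` gives `g` with `finrank ℚ E = 2 g`, `u5.act_emb L E g hg hg1` the structure `Act`,
`u2.card_cm_all` the number `2 ^ g` of all CM types. `J ≤ κ' * finrank ℚ E / log (finrank ℚ E) ≤ κ g / log g` for `κ' = κ / 2` (`log (2 g) ≥ log g`; if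
`log g = 0`, i.e. `g = 1`, excluded by `g₀ ≥ 2`).
-/

set_option autoImplicit false
set_option linter.unusedSectionVars false

namespace Pool.Agent.Lib.MP_938ce2_ag_sub

open Finset Module NumberField
open Pool.Agent.Lib.MP_938ce2_ag_h60 (CMType conj)
open Pool.Agent.Lib.MP_938ce2_ag_h65 (GeneratedUpTo)
open Pool.Agent.Lib.MP_938ce2_ag_u2 (card_cm_all)
open Pool.Agent.Lib.MP_938ce2_ag_u5 (even_finrank act_emb)

theorem sub_field (h2 : I2) (h3 : I3) : ∀ η : ℝ, 0 < η → ∃ κ : ℝ, 0 < κ ∧ ∃ n₀ : ℕ,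
    ∀ (L E : Type) [Field L] [NumberField L] [IsGalois ℚ L] [IsCMField L] [Field E]
      [NumberField E] [IsCMField E] [Nonempty (E →ₐ[ℚ] L)], n₀ ≤ finrank ℚ E → ∀ J : ℕ,
      (J : ℝ) ≤ κ * finrank ℚ E / Real.log (finrank ℚ E) →
      (Nat.card {Φ : Finset (E →ₐ[ℚ] L) //
        CMType (conj L) Φ ∧ ¬ GeneratedUpTo (L ≃ₐ[ℚ] L) J Φ} : ℝ)
        ≤ η * (Nat.card {Φ : Finset (E →ₐ[ℚ] L) // CMType (conj L) Φ} : ℝ) := by
  intro η hη
  obtain ⟨κ, hκ, g₀, h⟩ := main_sub h2 h3 η hη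
  refine ⟨κ / 2, by positivity, 2 * g₀ + 4, ?_⟩
  intro L E _ _ _ _ _ _ _ _ hge J hJ
  classical
  obtain ⟨g, hg, hg1⟩ := even_finrank E
  have hA := act_emb L E g hg hg1
  have hg2 : 2 ≤ g := by omega
  have hgR : (2 : ℝ) ≤ g := by exact_mod_cast hg2
  have hlog : 0 < Real.log g := Real.log_pos (by linarith)
  have hlog2 : Real.log g ≤ Real.log (2 * (g : ℝ)) :=
    Real.log_le_log (by linarith) (by linarith)
  have hJ' : (J : ℝ) ≤ κ * g / Real.log g := by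
    refine hJ.trans ?_
    rw [hg]
    push_cast
    have e : κ / 2 * (2 * (g : ℝ)) = κ * g := by ring
    rw [e]
    exact div_le_div_of_nonneg_left (by positivity) hlog hlog2
  have h1 := h (L ≃ₐ[ℚ] L) (E →ₐ[ℚ] L) (conj L) g hA (by omega) J hJ'
  have h4 := card_cm_all hA
  rw [h4]
  push_cast
  exact h1

end Pool.Agent.Lib.MP_938ce2_ag_sub
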