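import Mathlib
import Pool.Agent.Lib.MP_938ce2_ag_sub.S12
import Pool.Agent.Lib.MP_938ce2_ag_u6.Classes6

/-!
Every CM field: outside a small share of CM types the Tate classes of codimension at most
`κ g / log g` on all powers are generated by divisor classes.
-/

set_option autoImplicit false
set_option linter.unusedSectionVars false

namespace Pool.Agent.Lib.MP_938ce2_ag_sub

open Finset Module NumberField
open Pool.Agent.Lib.MP_938ce2_ag_h60 (CMType conj)
open Pool.Agent.Lib.MP_938ce2_ag_h65 (GeneratedUpTo)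

theorem sublinear_codimension : ∀ η : ℝ, 0 < η → ∃ κ : ℝ, 0 < κ ∧ ∃ n₀ : ℕ,
    ∀ (L E : Type) [Field L] [NumberField L] [IsGalois ℚ L] [IsCMField L] [Field E]
      [NumberField E] [IsCMField E] [Nonempty (E →ₐ[ℚ] L)], n₀ ≤ finrank ℚ E → ∀ J : ℕ,
      (J : ℝ) ≤ κ * finrank ℚ E / Real.log (finrank ℚ E) →
      (Nat.card {Φ : Finset (E →ₐ[ℚ] L) //
        CMType (conj L) Φ ∧ ¬ GeneratedUpTo (L ≃ₐ[ℚ] L) J Φ} : ℝ)
        ≤ η * (Nat.card {Φ : Finset (E →ₐ[ℚ] L) // CMType (conj L) Φ} : ℝ) :=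
  sub_field Pool.Agent.Lib.MP_938ce2_ag_u6.dim_two Pool.Agent.Lib.MP_938ce2_ag_u6.dim_three

end Pool.Agent.Lib.MP_938ce2_ag_sub
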